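import Pool.Agent.Run7.h286.PL.StmS

/-!
# Project JPL: the joint law of the 2-Selmer ranks of several curves twisted by the same `D`

helper784, after project PRL of helper286 (`Run7/h286/PL`) and project TG (`Run7/h784/TG`).

`ι` is a finite index set, `f i`, `i` in `ι`, are polynomials of the families of project TG, of degrees
`2 g i + 1`, with pairwise coprime discriminants, over the same finite field `k`. The theorem: for a random
squarefree `D` of degree `m`, `m → ∞`, the dimensions of the 2-Selmer groups of the Jacobians of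
`D y ^ 2 = f i (x)`, `i` in `ι`, are independent and each has the law of project PRL. (For `|ι| = 1` this is
PRL.) Consequence: for at least `(0.2097..) ^ |ι|` of all `D` all these Jacobians have trivial 2-Selmer
group (rank 0, Tate-Shafarevich group without 2-primary part).

Structure of the proof. The geometric Galois closures of the `f i` are linearly disjoint (JFULL). For one
index `i` the primes `Q` of type `i` (`typ`): `nr i Q ≤ 2` and `nr j Q = 1` for all `j ≠ i`, change only the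
`i`-th Selmer group; the iteration of PRL for them replaces the test function `φ` by its average over
the `i`-th variable (JITR). Do this for every `i`. So ALL ARGUMENTS ARE THOSE OF PRL / TG WITH
SPECTATORS; every piece is an adaptation of the corresponding proved piece (its author is asked first).

Every piece is a `def P_X : Prop`; please prove `theorem T_X : P_X` (or with the named hypotheses) in
`Pool/Agent/Run7/h<you>/JP/X.lean`. Table `h784_jp`.
-/

set_option autoImplicit false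
set_option linter.all false

open Polynomial IsDedekindDomain
open scoped Classical

namespace Run7.h784.JP

open Pool.Agent.N874.PP (Ov Ev Sq1)
open Pool.Agent.N352.PJ (IsGen Crd LocIm SelZero Fam GoodR Ht dsc)
open Run7.h875.TS (chi cd IsPC GSq irrD dg NRs uT sqf prD sqL sz Tr)
open Run7.h784.TG
open Run7.h286.PL (RelC ld del0 del1 wt Lw Mk Mz dimS sqF wD SelJ rkJ)

/-! ### Definitions -/

section defs

variable {k : Type} [Field k] {ι : Type} [Fintype ι]

/-- The product of the discriminants. -/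
noncomputable def dB (g : ι → ℕ) (f : ι → k[X][X]) : k[X] := ∏ i, dsc (g i) (f i)

/-- Several polynomials of the families of TG, with pairwise coprime discriminants. -/
structure JF (g N : ι → ℕ) (r : ι → k[X]) (f : ι → k[X][X]) : Prop where
  two : (2 : k) ≠ 0
  fm : ∀ i, Fm (g i) (N i) (r i) (f i)
  cop : ∀ i j, i ≠ j → IsCoprime (dsc (g i) (f i)) (dsc (g j) (f j))

/-- The joint geometric Galois group is the product of the symmetric groups. -/
def JFull (f : ι → k[X][X]) : Prop :=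
  ∀ (k' : Type) [Field k'] [IsAlgClosed k'] [Algebra k k'] [Algebra.IsAlgebraic k k']
    (K' W : Type) [Field K'] [Algebra k'[X] K'] [IsFractionRing k'[X] K'] [Field W] [Algebra K' W]
    [IsAlgClosure K' W] (σ : ∀ i, Equiv.Perm {x : W // eval₂ (big k k' K' W) x (f i) = 0}),
    ∃ τ : W ≃ₐ[K'] W, ∀ i, ∀ x : {x : W // eval₂ (big k k' K' W) x (f i) = 0},
      τ (x : W) = (σ i x : W)

/-- `H` is a plane model of the curve of the joint factorisations of the `f i` of types `c i`. -/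
structure JMd (f : ι → k[X][X]) {l : ι → ℕ} (c : ∀ i, Fin (l i) → ℕ) (H : k[X][X]) (D : k[X])
    (A : ∀ i, Fin (l i) → ℕ → k[X][X]) : Prop where
  pc : IsPC H D
  bij : ∀ (W : Type) [Field W] (φ : k[X] →+* W), φ D ≠ 0 →
    Set.BijOn (fun (y : W) (i : ι) => mdl φ (c i) D (A i) y) {y | eval₂ φ y H = 0}
      {a : ∀ i, Fin (l i) → W[X] | ∀ i, a i ∈ FacR φ (f i) (c i)}

/-- The density of the primes with `nr = 1` for all curves. -/
noncomputable def dl0 (g : ι → ℕ) : ℝ := ∏ j, del0 (g j)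

/-- The density of the primes with `nr = 2` for the curve `i` and `nr = 1` for the others. -/
noncomputable def dl1 (g : ι → ℕ) (i : ι) : ℝ :=
  del1 (g i) * ∏ j ∈ (Finset.univ : Finset ι).erase i, del0 (g j)

/-- The lazy transition operator in the variable `i`. -/
noncomputable def MzJ (ρ : ℝ) (i : ι) (φ : (ι → ℕ) → ℝ) (d : ι → ℕ) : ℝ :=
  Mz ρ (fun x => φ (Function.update d i x)) (d i)

/-- The expectation for the limit law in the variable `i`. -/
noncomputable def LwJ (i : ι) (φ : (ι → ℕ) → ℝ) (d : ι → ℕ) : ℝ :=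
  Lw (fun x => φ (Function.update d i x))

end defs

section av

variable {k : Type} [Field k] {ι : Type} [Fintype ι] {L : ι → Type} [∀ i, Field (L i)]
  [∀ i, Algebra k[X] (L i)] (O : ι → Type) [∀ i, CommRing (O i)] [∀ i, IsDedekindDomain (O i)]
  [∀ i, Algebra (O i) (L i)] [∀ i, IsFractionRing (O i) (L i)] [∀ i, Algebra k[X] (O i)]

/-- The average of `φ (dimensions)` over all choices of the local classes at the primes in `S`. -/
noncomputable def avJ (K : Type) [Field K] [∀ i, Algebra K (L i)] (f : ι → k[X][X]) (θ : ∀ i, L i)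
    (nrs : k[X] → k[X]) (φ : (ι → ℕ) → ℝ) (S : Finset k[X]) : ℝ :=
  (1 / 2 : ℝ) ^ S.card *
    ∑ T ∈ S.powerset, φ (fun i => ld (SelG (O i) K (f i) (θ i) S (uT nrs T)))

/-- Type `i`: `nr ≤ 2` for the curve `i`, `nr = 1` for the other curves. -/
def typ (i : ι) (Q : k[X]) : Prop := nr (O i) Q ≤ 2 ∧ ∀ j, j ≠ i → nr (O j) Q = 1

/-- The number of the primes `Q` of type `i` dividing `D` of degree greater than `M`. -/
noncomputable def bJ (i : ι) (M : ℕ) (D : k[X]) : ℕ :=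
  ((prD D).filter fun Q => typ O i Q ∧ M < Q.natDegree).card

end av

/-! ### Galois theory and plane models -/

/-- **JFULL** (helper781 first; compare Run7/h781/TG/FULL.lean). The joint geometric Galois group.

Proof. At a zero of `dsc (g i) (f i)` there is an element of the Galois group which acts on the zeros of `f i` as
a transposition and trivially on the zeros of the other `f j` (their discriminants are prime to it, so the
zeros of `f j` are unramified there). The subgroup of the elements acting trivially on all the `f j`, `j ≠ i`,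
is normal; its image `N_i` in the symmetric group of the zeros of `f i` is normalised by the image of the whole group,
which is the symmetric group (FULL), and contains a transposition: so `N_i` is the symmetric group. -/
def P_JFULL : Prop := ∀ (k : Type) [Field k] [Finite k] (ι : Type) [Fintype ι] (g N : ι → ℕ)
  (r : ι → k[X]) (f : ι → k[X][X]), JF g N r f → JFull f

/-- **JMODEL** (helper886 first; adapt the proof of MODEL, Run7/h886/TG/{MdA,MdB,MdC,MODEL}.lean). Plane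
models of the joint curves: families of colourings of the zeros of the `f i`, a product of transitive
actions. -/
def P_JMODEL : Prop := ∀ (k : Type) [Field k] [Finite k] (ι : Type) [Fintype ι] (g N : ι → ℕ)
  (r : ι → k[X]) (f : ι → k[X][X]), JF g N r f → JFull f →
  ∀ (l : ι → ℕ) (c : ∀ i, Fin (l i) → ℕ), (∀ i a, 1 ≤ c i a) → (∀ i, ∑ a, c i a = 2 * g i + 1) →
  ∃ (H : k[X][X]) (D : k[X]) (A : ∀ i, Fin (l i) → ℕ → k[X][X]), JMd f c H D A

/-- **JNSQ** (helper688 first; adapt NSQ, Run7/h688/TG). Nonsquares on the joint curves, for one curve `i`.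

Proof as for NSQ: if it is a square in the function field of the joint curve then it is a square in the
compositum `M` of the splitting fields; use the transpositions of the zeros of `f i` which fix all zeros
of the other `f j`: `α(θ)` is a square in `M`. The group of `M` over `k'(X)(θ)` is `S_{n_i - 1} × ∏ S_{n_j}`, so
`α(θ) = γ ^ 2 ∏_{j ∈ J} dsc_j` up to a constant; the norm gives that `∏_J dsc_j` is a square in `k'(X)`, so `J` is
empty (coprime, squarefree, not constant). -/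
def P_JNSQ : Prop := ∀ (k : Type) [Field k] [Finite k] (ι : Type) [Fintype ι] (g N : ι → ℕ)
  (r : ι → k[X]) (f : ι → k[X][X]), JF g N r f → JFull f →
  ∀ (l : ι → ℕ) (c : ∀ i, Fin (l i) → ℕ), (∀ i a, 1 ≤ c i a) → (∀ i, ∑ a, c i a = 2 * g i + 1) →
  ∀ (H : k[X][X]) (D : k[X]) (A : ∀ i, Fin (l i) → ℕ → k[X][X]), JMd f c H D A →
  ∀ (i : ι) (B : Finset (Fin (l i))), B.Nonempty → Even (∑ a ∈ B, c i a) →
  ∀ (K L : Type) [Field K] [Algebra k[X] K] [IsFractionRing k[X] K]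
    [Field L] [Algebra K L] [Algebra k[X] L] [IsScalarTower k[X] K L] (θ : L),
    IsGen (g i) K (f i) θ →
  ∀ (α : L) (z : Fin (2 * g i + 1) → k[X]), α ≠ 0 → IsSquare (Algebra.norm K α) → ¬ IsSquare α →
    Crd (g i) θ z α → ∀ (G : k[X][X]) (e : ℕ),
    (∀ (W : Type) [Field W] (φ : k[X] →+* W) (y : W), φ D ≠ 0 → eval₂ φ y H = 0 →
      eval₂ φ y G = φ D ^ (2 * e) * nv (∏ a ∈ B, mdl φ (c i) D (A i) y a) (zp φ z)) →
    ∀ (k' : Type) [Field k'] [IsAlgClosed k'] [Algebra k k'] [Algebra.IsAlgebraic k k'],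
      ¬ GSq k' H G

/-- **JNSQ2** (helper688 first; adapt NSQ2, its case (ii)). -/
def P_JNSQ2 : Prop := ∀ (k : Type) [Field k] [Finite k] (ι : Type) [Fintype ι] (g N : ι → ℕ)
  (r : ι → k[X]) (f : ι → k[X][X]), JF g N r f → JFull f →
  ∀ (l : ι → ℕ) (c : ∀ i, Fin (l i) → ℕ), (∀ i a, 1 ≤ c i a) → (∀ i, ∑ a, c i a = 2 * g i + 1) →
  ∀ (H : k[X][X]) (D : k[X]) (A : ∀ i, Fin (l i) → ℕ → k[X][X]), JMd f c H D A →
  ∀ b : k[X], Squarefree b → IsCoprime b (dB g f) → 0 < b.natDegree →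
    ∀ (k' : Type) [Field k'] [IsAlgClosed k'] [Algebra k k'] [Algebra.IsAlgebraic k k'],
      ¬ GSq k' H (C b)

/-- **JW** (helper886 first; from JMODEL, JNSQ, JNSQ2, `S_DOUBLE`, as W). The estimates needed. -/
def P_JW : Prop := ∀ (k : Type) [Field k] [Finite k] (ι : Type) [Fintype ι] (g N : ι → ℕ)
  (r : ι → k[X]) (f : ι → k[X][X]), JF g N r f → JFull f → ∃ C₀ : ℕ,
  ∀ (l : ι → ℕ) (c : ∀ i, Fin (l i) → ℕ), (∀ i a, 1 ≤ c i a) → (∀ i, ∑ a, c i a = 2 * g i + 1) →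
  (∀ (F : Type) [Field F] [Fintype F] [Algebra k F],
    |(∑ t : F, ∏ i, ((FacR (evt (k := k) t) (f i) (c i)).ncard : ℝ)) - cd F| ≤ C₀ * √(cd F)) ∧
  (∀ b : k[X], Squarefree b → IsCoprime b (dB g f) → 0 < b.natDegree →
    ∀ (F : Type) [Field F] [Fintype F] [Algebra k F],
      |∑ t : F, chi (aeval t b) * ∏ i, ((FacR (evt (k := k) t) (f i) (c i)).ncard : ℝ)| ≤
        C₀ * (1 + b.natDegree) * √(cd F)) ∧
  ∀ (i : ι) (B : Finset (Fin (l i))), B.Nonempty → Even (∑ a ∈ B, c i a) →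
  ∀ (K L : Type) [Field K] [Algebra k[X] K] [IsFractionRing k[X] K]
    [Field L] [Algebra K L] [Algebra k[X] L] [IsScalarTower k[X] K L] (θ : L),
    IsGen (g i) K (f i) θ →
  ∀ (α : L) (z : Fin (2 * g i + 1) → k[X]) (N' : ℕ), α ≠ 0 → IsSquare (Algebra.norm K α) →
    ¬ IsSquare α → Crd (g i) θ z α → (∀ a, (z a).natDegree ≤ N') →
    ∀ (F : Type) [Field F] [Fintype F] [Algebra k F],
      |∑ t : F, (∑ᶠ a ∈ FacR (evt (k := k) t) (f i) (c i),
        chi (nv (∏ b ∈ B, a b) (zp (evt (k := k) t) z))) *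
          ∏ j ∈ (Finset.univ : Finset ι).erase i,
            ((FacR (evt (k := k) t) (f j) (c j)).ncard : ℝ)| ≤
          C₀ * (1 + N') * √(cd F)

/-! ### Counting primes -/

/-- **JKILL2** (helper908 first; from JW, STK, DIC, COMB, as KILL2: multiply by COMB for the other curves).
Primes of type `nr = 2` for `i`, `nr = 1` for the others. -/
def P_JKILL2 : Prop := ∀ (k : Type) [Field k] [Finite k] (ι : Type) [Fintype ι] (g N : ι → ℕ)
  (r : ι → k[X]) (f : ι → k[X][X]), JF g N r f → JFull f → ∃ C₀ : ℕ,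
    ∀ (K : Type) [Field K] [Algebra k[X] K] [IsFractionRing k[X] K] (L O : ι → Type)
    [∀ i, Field (L i)] [∀ i, Algebra K (L i)] [∀ i, Algebra k[X] (L i)]
    [∀ i, IsScalarTower k[X] K (L i)] [∀ i, CommRing (O i)] [∀ i, IsDedekindDomain (O i)]
    [∀ i, Algebra (O i) (L i)] [∀ i, IsFractionRing (O i) (L i)] [∀ i, Algebra k[X] (O i)]
    [∀ i, IsScalarTower k[X] (O i) (L i)] [∀ i, IsIntegralClosure (O i) k[X] (L i)]
    (θ : ∀ i, L i), (∀ i, IsGen (g i) K (f i) (θ i)) → ∀ i : ι,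
    (∀ m : ℕ, 0 < m → |(((irrD k m).filter fun Q => ¬ Q ∣ dB g f ∧ nr (O i) Q = 2 ∧
        ∀ j, j ≠ i → nr (O j) Q = 1).card : ℝ) -
      dl1 g i * (Nat.card k : ℝ) ^ m / m| ≤ C₀ * √((Nat.card k : ℝ) ^ m)) ∧
    ∀ (α : L i) (z : Fin (2 * g i + 1) → k[X]) (N' : ℕ), α ≠ 0 → IsSquare (Algebra.norm K α) →
      ¬ IsSquare α → Crd (g i) (θ i) z α → (∀ a, (z a).natDegree ≤ N') → ∀ m : ℕ, 0 < m →
      |(((irrD k m).filter fun Q => ¬ Q ∣ dB g f ∧ nr (O i) Q = 2 ∧
          (∀ j, j ≠ i → nr (O j) Q = 1) ∧ ¬ Tr (O i) Q α).card : ℝ) -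
        dl1 g i / 2 * (Nat.card k : ℝ) ^ m / m| ≤ C₀ * (1 + N') * √((Nat.card k : ℝ) ^ m)

/-- **JLAST2** (helper908 first; from JW, DIC, COMB, STK, `S_TRS`, quadratic reciprocity, as LAST2). -/
def P_JLAST2 : Prop := ∀ (k : Type) [Field k] [Finite k] (ι : Type) [Fintype ι] (g N : ι → ℕ)
  (r : ι → k[X]) (f : ι → k[X][X]), JF g N r f → JFull f → ∃ C₀ : ℕ,
    ∀ (K : Type) [Field K] [Algebra k[X] K] [IsFractionRing k[X] K] (L O : ι → Type)
    [∀ i, Field (L i)] [∀ i, Algebra K (L i)] [∀ i, Algebra k[X] (L i)]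
    [∀ i, IsScalarTower k[X] K (L i)] [∀ i, CommRing (O i)] [∀ i, IsDedekindDomain (O i)]
    [∀ i, Algebra (O i) (L i)] [∀ i, IsFractionRing (O i) (L i)] [∀ i, Algebra k[X] (O i)]
    [∀ i, IsScalarTower k[X] (O i) (L i)] [∀ i, IsIntegralClosure (O i) k[X] (L i)]
    (θ : ∀ i, L i), (∀ i, IsGen (g i) K (f i) (θ i)) → ∀ (S : Finset k[X]) (η : k[X] → Prop),
    (∀ P ∈ S, P.Monic ∧ Irreducible P ∧ ¬ P ∣ dB g f) → ∀ m : ℕ, 0 < m →
      |(((irrD k m).filter fun Q => ¬ Q ∣ dB g f ∧ (∀ j, nr (O j) Q = 1) ∧ Q ∉ S ∧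
          ∀ P ∈ S, (∃ z : k[X], P ∣ z ^ 2 - Q) ↔ η P).card : ℝ) -
        dl0 g * (1 / 2) ^ S.card * (Nat.card k : ℝ) ^ m / m| ≤
          C₀ * (1 + dg S) * √((Nat.card k : ℝ) ^ m)

/-! ### Averages -/

/-- **JS1** (helper957 first; from JKILL2, JLAST2 (`S = ∅`), EXS, POW, REP, GRP, STEP, as S1). One step of
the Markov chain for the curve `i`. For a prime of type `i` the groups of the curves `j ≠ i` do not change
(EXS, `nr = 1`). -/
def P_JS1 : Prop := ∀ (k : Type) [Field k] [Finite k] (ι : Type) [Fintype ι] (g N : ι → ℕ)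
  (r : ι → k[X]) (f : ι → k[X][X]), JF g N r f → JFull f →
    ∀ (K : Type) [Field K] [Algebra k[X] K] [IsFractionRing k[X] K] (L O : ι → Type)
    [∀ i, Field (L i)] [∀ i, Algebra K (L i)] [∀ i, Algebra k[X] (L i)]
    [∀ i, IsScalarTower k[X] K (L i)] [∀ i, CommRing (O i)] [∀ i, IsDedekindDomain (O i)]
    [∀ i, Algebra (O i) (L i)] [∀ i, IsFractionRing (O i) (L i)] [∀ i, Algebra k[X] (O i)]
    [∀ i, IsScalarTower k[X] (O i) (L i)] [∀ i, IsIntegralClosure (O i) k[X] (L i)]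
    (θ : ∀ i, L i), (∀ i, IsGen (g i) K (f i) (θ i)) → ∀ nrs : k[X] → k[X], NRs nrs →
  (∀ (φ : (ι → ℕ) → ℝ) (S : Finset k[X]), (∀ P ∈ S, P.Monic ∧ Irreducible P ∧ ¬ P ∣ dB g f) →
    ∀ Q : k[X], Q.Monic → Irreducible Q → Q ∉ S → ¬ Q ∣ dB g f → (∀ j, nr (O j) Q = 1) →
      avJ O K f θ nrs φ (insert Q S) = avJ O K f θ nrs φ S) ∧
  ∃ C₀ : ℕ, ∀ (i : ι) (φ : (ι → ℕ) → ℝ), (∀ d, |φ d| ≤ 1) → ∀ S : Finset k[X],
    (∀ P ∈ S, P.Monic ∧ Irreducible P ∧ ¬ P ∣ dB g f) → ∀ m : ℕ, 0 < m →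
    |∑ Q ∈ (irrD k m).filter (fun Q => typ O i Q ∧ Q ∉ S ∧ ¬ Q ∣ dB g f),
        avJ O K f θ nrs φ (insert Q S) -
      (dl0 g + dl1 g i) * (Nat.card k : ℝ) ^ m / m *
        avJ O K f θ nrs (MzJ (del1 (g i) / (del0 (g i) + del1 (g i))) i φ) S| ≤
      C₀ * (1 + dg S) * √((Nat.card k : ℝ) ^ m)

/-- **JS0** (author of S0 first; from JLAST2, CLSU, EXS, GRP). A prime with `nr = 1` for all curves makes
the local classes uniform (they are the same for all the curves). -/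
def P_JS0 : Prop := ∀ (k : Type) [Field k] [Finite k] (ι : Type) [Fintype ι] (g N : ι → ℕ)
  (r : ι → k[X]) (f : ι → k[X][X]), JF g N r f → JFull f →
    ∀ (K : Type) [Field K] [Algebra k[X] K] [IsFractionRing k[X] K] (L O : ι → Type)
    [∀ i, Field (L i)] [∀ i, Algebra K (L i)] [∀ i, Algebra k[X] (L i)]
    [∀ i, IsScalarTower k[X] K (L i)] [∀ i, CommRing (O i)] [∀ i, IsDedekindDomain (O i)]
    [∀ i, Algebra (O i) (L i)] [∀ i, IsFractionRing (O i) (L i)] [∀ i, Algebra k[X] (O i)]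
    [∀ i, IsScalarTower k[X] (O i) (L i)] [∀ i, IsIntegralClosure (O i) k[X] (L i)]
    (θ : ∀ i, L i), (∀ i, IsGen (g i) K (f i) (θ i)) → ∀ nrs : k[X] → k[X], NRs nrs →
  ∃ C₀ : ℕ, ∀ φ : (ι → ℕ) → ℝ, (∀ d, |φ d| ≤ 1) → ∀ D : k[X], D.Monic → Squarefree D →
    IsCoprime D (dB g f) → ∀ m : ℕ, 0 < m →
    |∑ Q ∈ (irrD k m).filter (fun Q => (∀ j, nr (O j) Q = 1) ∧ ¬ Q ∣ D ∧ ¬ Q ∣ dB g f),
        φ (fun j => dimS (O j) K (f j) (θ j) (D * Q)) -
      dl0 g * (Nat.card k : ℝ) ^ m / m * avJ O K f θ nrs φ (prD D)| ≤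
      C₀ * 2 ^ (prD D).card * (1 + D.natDegree) * √((Nat.card k : ℝ) ^ m)

/-- **JNAT** (author of NAT first; from JS0, JS1 (first part), JLAST2 (`S = ∅`), REM, RAN, DIV, with
`τ Q = (∀ j, nr (O j) Q = 1)`, `B = dB g f`). -/
def P_JNAT : Prop := ∀ (k : Type) [Field k] [Finite k] (ι : Type) [Fintype ι] (g N : ι → ℕ)
  (r : ι → k[X]) (f : ι → k[X][X]), JF g N r f → JFull f →
    ∀ (K : Type) [Field K] [Algebra k[X] K] [IsFractionRing k[X] K] (L O : ι → Type)
    [∀ i, Field (L i)] [∀ i, Algebra K (L i)] [∀ i, Algebra k[X] (L i)]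
    [∀ i, IsScalarTower k[X] K (L i)] [∀ i, CommRing (O i)] [∀ i, IsDedekindDomain (O i)]
    [∀ i, Algebra (O i) (L i)] [∀ i, IsFractionRing (O i) (L i)] [∀ i, Algebra k[X] (O i)]
    [∀ i, IsScalarTower k[X] (O i) (L i)] [∀ i, IsIntegralClosure (O i) k[X] (L i)]
    (θ : ∀ i, L i), (∀ i, IsGen (g i) K (f i) (θ i)) → ∀ nrs : k[X] → k[X], NRs nrs →
  ∀ φ : (ι → ℕ) → ℝ, (∀ d, |φ d| ≤ 1) → ∀ ε : ℝ, 0 < ε → ∃ N₀ : ℕ, ∀ m ≥ N₀,
    |∑ D ∈ sqF (dB g f) m, φ (fun j => dimS (O j) K (f j) (θ j) D) -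
      ∑ D ∈ sqF (dB g f) m, avJ O K f θ nrs φ (prD D)| ≤ ε * (Nat.card k : ℝ) ^ m

/-- **JSTP** (helper303 first; from JS1, REM with `τ Q = (typ O i Q ∧ M < deg Q)`). -/
def P_JSTP : Prop := ∀ (k : Type) [Field k] [Finite k] (ι : Type) [Fintype ι] (g N : ι → ℕ)
  (r : ι → k[X]) (f : ι → k[X][X]), JF g N r f → JFull f →
    ∀ (K : Type) [Field K] [Algebra k[X] K] [IsFractionRing k[X] K] (L O : ι → Type)
    [∀ i, Field (L i)] [∀ i, Algebra K (L i)] [∀ i, Algebra k[X] (L i)]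
    [∀ i, IsScalarTower k[X] K (L i)] [∀ i, CommRing (O i)] [∀ i, IsDedekindDomain (O i)]
    [∀ i, Algebra (O i) (L i)] [∀ i, IsFractionRing (O i) (L i)] [∀ i, Algebra k[X] (O i)]
    [∀ i, IsScalarTower k[X] (O i) (L i)] [∀ i, IsIntegralClosure (O i) k[X] (L i)]
    (θ : ∀ i, L i), (∀ i, IsGen (g i) K (f i) (θ i)) → ∀ nrs : k[X] → k[X], NRs nrs → ∀ i : ι,
  ∃ C₀ : ℕ, ∀ φ : (ι → ℕ) → ℝ, (∀ d, |φ d| ≤ 1) → ∀ (v : ℕ → ℝ) (V : ℝ), (∀ b, |v b| ≤ V) →
    ∀ M j : ℕ,
    |∑ D ∈ sqF (dB g f) j, (bJ O i M D : ℝ) * v (bJ O i M D) * avJ O K f θ nrs φ (prD D) -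
      ∑ m ∈ Finset.Ioc M j, (dl0 g + dl1 g i) * (Nat.card k : ℝ) ^ m / m *
        ∑ D ∈ sqF (dB g f) (j - m), v (bJ O i M D + 1) *
          avJ O K f θ nrs (MzJ (del1 (g i) / (del0 (g i) + del1 (g i))) i φ) (prD D)| ≤
      C₀ * V * (1 + j) * (Nat.card k : ℝ) ^ j / √((Nat.card k : ℝ) ^ M)

/-- **JITR** (helper303 first; from JSTP, MC, AVG (for the curve `i`; `sqf (dB g f) j ⊆ sqf (dsc (g i) (f i)) j`),
RAN, JKILL2 and JLAST2 (numbers of primes), DIV, REP; as ITR). The average over the variable `i`. -/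
def P_JITR : Prop := ∀ (k : Type) [Field k] [Finite k] (ι : Type) [Fintype ι] (g N : ι → ℕ)
  (r : ι → k[X]) (f : ι → k[X][X]), JF g N r f → JFull f →
    ∀ (K : Type) [Field K] [Algebra k[X] K] [IsFractionRing k[X] K] (L O : ι → Type)
    [∀ i, Field (L i)] [∀ i, Algebra K (L i)] [∀ i, Algebra k[X] (L i)]
    [∀ i, IsScalarTower k[X] K (L i)] [∀ i, CommRing (O i)] [∀ i, IsDedekindDomain (O i)]
    [∀ i, Algebra (O i) (L i)] [∀ i, IsFractionRing (O i) (L i)] [∀ i, Algebra k[X] (O i)]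
    [∀ i, IsScalarTower k[X] (O i) (L i)] [∀ i, IsIntegralClosure (O i) k[X] (L i)]
    (θ : ∀ i, L i), (∀ i, IsGen (g i) K (f i) (θ i)) → ∀ nrs : k[X] → k[X], NRs nrs →
  ∀ (i : ι) (φ : (ι → ℕ) → ℝ), (∀ d, |φ d| ≤ 1) → ∀ ε : ℝ, 0 < ε → ∃ N₀ : ℕ, ∀ m ≥ N₀,
    |∑ D ∈ sqF (dB g f) m, (avJ O K f θ nrs φ (prD D) - avJ O K f θ nrs (LwJ i φ) (prD D))| ≤
      ε * (Nat.card k : ℝ) ^ m

/-- **JLAW** (helper784; from JNAT, JITR, SQF3). The joint law of the explicit Selmer groups. -/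
def P_JLAW : Prop := ∀ (k : Type) [Field k] [Finite k] (ι : Type) [Fintype ι] [Nonempty ι] (g N : ι → ℕ)
  (r : ι → k[X]) (f : ι → k[X][X]), JF g N r f → JFull f →
    ∀ (K : Type) [Field K] [Algebra k[X] K] [IsFractionRing k[X] K] (L O : ι → Type)
    [∀ i, Field (L i)] [∀ i, Algebra K (L i)] [∀ i, Algebra k[X] (L i)]
    [∀ i, IsScalarTower k[X] K (L i)] [∀ i, CommRing (O i)] [∀ i, IsDedekindDomain (O i)]
    [∀ i, Algebra (O i) (L i)] [∀ i, IsFractionRing (O i) (L i)] [∀ i, Algebra k[X] (O i)]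
    [∀ i, IsScalarTower k[X] (O i) (L i)] [∀ i, IsIntegralClosure (O i) k[X] (L i)]
    (θ : ∀ i, L i), (∀ i, IsGen (g i) K (f i) (θ i)) →
  ∀ ψ : ι → ℕ → ℝ, (∀ i d, |ψ i d| ≤ 1) →
    Filter.Tendsto (fun m => (∑ D ∈ sqF (dB g f) m, ∏ i, ψ i (dimS (O i) K (f i) (θ i) D)) /
      ((sqF (dB g f) m).card : ℝ)) Filter.atTop (nhds (∏ i, Lw (ψ i)))

/-- **JFIN** (helper784; from JLAW, BRG, EQ1, EQ2, CONC, NUM). The final theorem: the joint law of the
dimensions of the 2-Selmer groups of the Jacobians, and the lower bound for the proportion of the `D`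
for which all these groups are trivial. -/
def P_JFIN : Prop := ∀ (k : Type) [Field k] [Finite k] (ι : Type) [Fintype ι] [Nonempty ι] (g N : ι → ℕ)
  (r : ι → k[X]) (f : ι → k[X][X]), JF g N r f →
    ∀ (K : Type) [Field K] [Algebra k[X] K] [IsFractionRing k[X] K],
  (∀ d : ι → ℕ, Filter.Tendsto (fun m => (((sqF (dB g f) m).filter fun D =>
      ∀ i, rkJ K ((f i).scaleRoots D) = d i).card : ℝ) / ((sqF (dB g f) m).card : ℝ)) Filter.atTop
    (nhds (∏ i, (wt (d i) / ∑' j, wt j)))) ∧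
  ∀ ε : ℝ, 0 < ε → ∃ N₀ : ℕ, ∀ m ≥ N₀,
    ((1 / (∑' i, wt i)) ^ Fintype.card ι - ε) * ((sqF (dB g f) m).card : ℝ) ≤
      (((sqF (dB g f) m).filter fun D => ∀ i, SelZero K ((f i).scaleRoots D)).card : ℝ)

end Run7.h784.JP
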