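import Pool.Agent.Run7.h784.JP.JMEA
import Pool.Agent.Run7.h286.PL.Core

/-!
# Project JPL: all leading coefficients (helper784, after `Run7/h286/PL/Core.lean` of helper286)
-/

set_option autoImplicit false
set_option linter.all false

open Polynomial IsDedekindDomain Filter
open scoped Classical Topology

namespace Run7.h784.JP

open Pool.Agent.N352.PJ (IsGen Crd LocIm SelZero Fam GoodR Ht dsc)
open Run7.h875.TS (sqf)
open Run7.h784.TG
open Run7.h286.PL

/-- The sum of a product function is the product of the sums. -/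
theorem tsum_pi {ι : Type} [Fintype ι] (a : ι → ℕ → ℝ) (h0 : ∀ i d, 0 ≤ a i d)
    (hs : ∀ i, Summable (a i)) : ∑' d : ι → ℕ, ∏ i, a i (d i) = ∏ i, ∑' d, a i d := by
  let Bx : ℕ → Finset (ι → ℕ) := fun R => Fintype.piFinset fun _ => Finset.range R
  have hBx : ∀ R d, d ∈ Bx R ↔ ∀ i, d i < R := by
    intro R d
    simp only [Bx, Fintype.mem_piFinset, Finset.mem_range]
  have hBt : Tendsto Bx atTop atTop := by
    refine tendsto_atTop_finset_of_monotone (fun R R' h d hd => ?_) fun d => ⟨∑ i, d i + 1, ?_⟩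
    · rw [hBx] at hd ⊢
      exact fun i => (hd i).trans_le h
    · rw [hBx]
      exact fun i => Nat.lt_succ_of_le
        (Finset.single_le_sum (fun _ _ => Nat.zero_le _) (Finset.mem_univ i))
  have h1 : Tendsto (fun R => ∑ d ∈ Bx R, ∏ i, a i (d i)) atTop
      (𝓝 (∑' d : ι → ℕ, ∏ i, a i (d i))) := (summable_pi a h0 hs).hasSum.comp hBt
  have h2 : Tendsto (fun R => ∑ d ∈ Bx R, ∏ i, a i (d i)) atTop (𝓝 (∏ i, ∑' d, a i d)) := by
    have h3 : (fun R => ∑ d ∈ Bx R, ∏ i, a i (d i)) = fun R => ∏ i, ∑ d ∈ Finset.range R, a i d := by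
      funext R
      exact (Finset.prod_univ_sum (fun _ : ι => Finset.range R) a).symm
    rw [h3]
    exact tendsto_finset_prod _ fun i _ => (hs i).hasSum.tendsto_sum_nat
  exact tendsto_nhds_unique h1 h2

section defs

variable {k : Type} [Field k] {ι : Type} [Fintype ι]

/-- The squarefree `D` of degree `m` with leading coefficient `u`, prime to all the discriminants. -/
def TwJ (g : ι → ℕ) (f : ι → k[X][X]) (u : k) (m : ℕ) : Set k[X] :=
  {D | D.leadingCoeff = u ∧ D.natDegree = m ∧ Squarefree D ∧ ∀ i, IsCoprime D (dsc (g i) (f i))}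

theorem jf_scale {g N : ι → ℕ} {r : ι → k[X]} {f : ι → k[X][X]} (h : JF g N r f) {u : k}
    (hu : u ≠ 0) : JF g N (fun i => (r i).scaleRoots u) (fun i => (f i).scaleRoots (C u)) := by
  refine ⟨h.two, fun i => fm_scale (h.fm i) hu, fun i j hij => ?_⟩
  rw [dsc_scale (h.fm i).fam.ht.mon (h.fm i).fam.ht.deg (C_ne_zero.2 hu),
    dsc_scale (h.fm j).fam.ht.mon (h.fm j).fam.ht.deg (C_ne_zero.2 hu)]
  exact (isCoprime_mul_unit_left_left ((unit_C hu).pow _) _ _).2
    ((isCoprime_mul_unit_left_right ((unit_C hu).pow _) _ _).2 (h.cop i j hij))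

/-- Monic `D` and `u D`. -/
theorem twJ_eq {g N : ι → ℕ} {r : ι → k[X]} {f : ι → k[X][X]} (h : JF g N r f) {u : k}
    (hu : u ≠ 0) (m : ℕ) :
    TwJ g f u m = (fun D : k[X] => C u * D) '' sqf (dB g fun i => (f i).scaleRoots (C u)) m := by
  have hCu : (C u : k[X]) ≠ 0 := C_ne_zero.2 hu
  have hunit := unit_C hu
  have hcop : ∀ D : k[X], IsCoprime D (dB g fun i => (f i).scaleRoots (C u)) ↔
      ∀ i, IsCoprime D (dsc (g i) (f i)) := by
    intro D
    unfold dB
    rw [IsCoprime.prod_right_iff]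
    simp only [Finset.mem_univ, true_implies]
    refine forall_congr' fun i => ?_
    rw [dsc_scale (h.fm i).fam.ht.mon (h.fm i).fam.ht.deg hCu]
    exact isCoprime_mul_unit_left_right (hunit.pow _) _ _
  have hsq : ∀ D : k[X], Squarefree (C u * D) ↔ Squarefree D := fun D =>
    (Associated.squarefree_iff ⟨hunit.unit, by rw [IsUnit.unit_spec, mul_comm]⟩).symm
  ext E
  constructor
  · rintro ⟨h1, h2, h3, h4⟩
    have hE : C u * (C u⁻¹ * E) = E := by
      rw [← mul_assoc, ← C_mul, mul_inv_cancel₀ hu, C_1, one_mul]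
    refine ⟨C u⁻¹ * E, ⟨?_, ?_, ?_, ?_⟩, hE⟩
    · rw [Monic, leadingCoeff_mul, leadingCoeff_C, h1, inv_mul_cancel₀ hu]
    · rw [natDegree_C_mul (inv_ne_zero hu), h2]
    · rw [← hsq, hE]; exact h3
    · rw [hcop]
      intro i
      have h5 : IsCoprime (C u * (C u⁻¹ * E)) (dsc (g i) (f i)) := by rw [hE]; exact h4 i
      exact h5.of_mul_left_right
  · rintro ⟨D, ⟨h1, h2, h3, h4⟩, rfl⟩
    refine ⟨?_, ?_, (hsq D).2 h3, fun i => ?_⟩
    · show (C u * D).leadingCoeff = u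
      rw [leadingCoeff_mul, leadingCoeff_C, h1.leadingCoeff, mul_one]
    · show (C u * D).natDegree = m
      rw [natDegree_C_mul hu, h2]
    · exact (isCoprime_mul_unit_left_left hunit _ _).2 ((hcop D).1 h4 i)

theorem finsum_twJ [Finite k] {g N : ι → ℕ} {r : ι → k[X]} {f : ι → k[X][X]} (h : JF g N r f)
    {u : k} (hu : u ≠ 0) (m : ℕ) (Φ : k[X] → ℝ) :
    ∑ᶠ D ∈ TwJ g f u m, Φ D =
      ∑ D ∈ sqF (dB g fun i => (f i).scaleRoots (C u)) m, Φ (C u * D) := by
  have hf' := jf_scale h hu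
  have hB := dB_ne' hf'
  rw [twJ_eq h hu, finsum_mem_image (C_mul_inj hu).injOn, ← coe_sqF hf'.two hB,
    finsum_mem_coe_finset]

theorem ncard_twJ [Finite k] {g N : ι → ℕ} {r : ι → k[X]} {f : ι → k[X][X]} (h : JF g N r f)
    {u : k} (hu : u ≠ 0) (m : ℕ) :
    (TwJ g f u m).ncard = (sqF (dB g fun i => (f i).scaleRoots (C u)) m).card := by
  have hf' := jf_scale h hu
  have hB := dB_ne' hf'
  rw [twJ_eq h hu, Set.ncard_image_of_injective _ (C_mul_inj hu), ← coe_sqF hf'.two hB,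
    Set.ncard_coe_finset]

theorem twJ_fin [Finite k] {g N : ι → ℕ} {r : ι → k[X]} {f : ι → k[X][X]} (h : JF g N r f)
    {u : k} (hu : u ≠ 0) (m : ℕ) : (TwJ g f u m).Finite := by
  have hf' := jf_scale h hu
  have hB := dB_ne' hf'
  rw [twJ_eq h hu, ← coe_sqF hf'.two hB]
  exact (Finset.finite_toSet _).image _

/-- The mean of a function of the dimensions. -/
theorem mean_twJ (hM : P_JFINM) [Finite k] [Nonempty ι] {g N : ι → ℕ} {r : ι → k[X]}
    {f : ι → k[X][X]} (h : JF g N r f) (K : Type) [Field K] [Algebra k[X] K]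
    [IsFractionRing k[X] K] {u : k} (hu : u ≠ 0) (φ : (ι → ℕ) → ℝ)
    (hφ : ∃ C y : ℝ, ∀ d, |φ d| ≤ C * y ^ (∑ i, d i)) :
    Tendsto (fun m => (∑ᶠ D ∈ TwJ g f u m, φ (fun i => rkJ K ((f i).scaleRoots D))) /
      ((TwJ g f u m).ncard : ℝ)) atTop (𝓝 (∑' d : ι → ℕ, φ d * ∏ i, (wt (d i) / ∑' j, wt j))) := by
  refine (hM k ι g N _ _ (jf_scale h hu) K φ hφ).congr fun m => ?_
  rw [finsum_twJ h hu, ncard_twJ h hu]
  congr 1
  refine Finset.sum_congr rfl fun D _ => ?_
  congr 1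
  funext i
  rw [scaleRoots_mul]

end defs

end Run7.h784.JP
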