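import Pool.Agent.Run7.h784.JP.JMid
import Pool.Agent.Run7.h784.JP.Stm
import Pool.Agent.Run7.h781.TG.FULL

/-!
# Project JPL, piece JFULL: the joint geometric Galois group (helper784)

Adapted from `Run7/h781/TG/FULL.lean` (helper781).
-/

set_option autoImplicit false
set_option linter.all false

open Polynomial
open scoped Classical

namespace Run7.h784.JP

open Run7.h784.TG
open Run7.h781.TG
open Pool.Agent.N352.PJ (dsc Fam GoodR Ht)

section one

variable {k : Type} [Field k] [Finite k] {k' : Type} [Field k'] [IsAlgClosed k'] [Algebra k k']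
  [Algebra.IsAlgebraic k k'] {K' W : Type} [Field K'] [Algebra k'[X] K'] [IsFractionRing k'[X] K']
  [Field W] [Algebra K' W] [IsAlgClosed W]

/-- The facts for one curve. -/
theorem one_curve {g N : ℕ} {r : k[X]} {f : k[X][X]} (hF : Fm g N r f)
    (O : ValuationSubring W)
    (hO1 : ∀ c : k', ((algebraMap K' W).comp (algebraMap k'[X] K')) (C c) ∈ O)
    (hO2 : O.valuation (((algebraMap K' W).comp (algebraMap k'[X] K')) X)⁻¹ < 1)
    (hι : Function.Injective ((algebraMap K' W).comp (algebraMap k'[X] K'))) :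
    ∃ (a : Fin (2 * g + 1) → W) (m : ℕ), f.map (big k k' K' W) = ∏ i, (X - C (a i)) ∧
      Function.Injective a ∧
      Squarefree ((-1 : k'[X]) ^ m * mapRingHom (algebraMap k k') (dsc g f)) ∧
      ((algebraMap K' W).comp (algebraMap k'[X] K'))
        ((-1 : k'[X]) ^ m * mapRingHom (algebraMap k k') (dsc g f)) =
          (Matrix.vandermonde a).det ^ 2 ∧
      ∀ i j, i ≠ j → 1 < O.valuation (a i - a j) := by
  have hfm := hF.fam.ht.mon
  have hfd := hF.fam.ht.deg
  have hN := hF.n1
  let ι : k'[X] →+* W := (algebraMap K' W).comp (algebraMap k'[X] K')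
  let e : k[X] →+* k'[X] := mapRingHom (algebraMap k k')
  have hbig : big k k' K' W = ι.comp e := rfl
  obtain ⟨a, ha⟩ := exists_roots (f.map (big k k' K' W)) (hfm.map _) (2 * g + 1)
    (by rw [hfm.natDegree_map, hfd])
  have hd1 : big k k' K' W (dsc g f) = ∏ i, ∏ j ∈ Finset.univ.erase i, (a i - a j) := by
    rw [dsc, ← resultant_map_map, ← derivative_map, ha, res_prod]
  obtain ⟨m, hm⟩ := prod_diff a
  have hd0 : dsc g f ≠ 0 := hF.fam.sq.ne_zero
  have hdsq : Squarefree ((-1) ^ m * e (dsc g f)) := by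
    have h1 : (dsc g f).Separable := PerfectField.separable_iff_squarefree.2 hF.fam.sq
    have h2 : (e (dsc g f)).Separable := h1.map
    have h3 : Squarefree (e (dsc g f)) := h2.squarefree
    rcases neg_one_pow_eq_or k'[X] m with h | h
    · rw [h, one_mul]; exact h3
    · rw [h, neg_one_mul]
      intro x hx
      exact h3 x ((dvd_neg).1 hx)
  have hd2 : ι ((-1) ^ m * e (dsc g f)) = (Matrix.vandermonde a).det ^ 2 := by
    rw [← hm, ← hd1, map_mul, map_pow, map_neg, map_one]
    rfl
  have ainj : Function.Injective a := by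
    rw [← Matrix.det_vandermonde_ne_zero_iff]
    intro h0
    rw [h0, zero_pow two_ne_zero, map_eq_zero_iff _ hι] at hd2
    exact hdsq.ne_zero hd2
  have hrs : r.Separable := PerfectField.separable_of_irreducible hF.gr.2.1
  have hdv : ∀ i j, i ≠ j → 1 < O.valuation (a i - a j) := by
    intro i j hij
    refine diff_val ι hι O hO1 hO2 (2 * g + 1) (2 * N) (by omega) f hfm hfd
      (fun j hj => hF.fam.ht.ht j (by omega)) r hF.gr.1 hF.gr.2.2.1 hrs
      (fun j hj => hF.fam.inf j (by omega)) a ha i j hij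
  exact ⟨a, m, ha, ainj, hdsq, hd2, hdv⟩

end one

/-- A difference of two of the elements divides the square of the Vandermonde determinant. -/
theorem vdm_dvd {B : Type} [CommRing B] {n : ℕ} (a : Fin n → B) (i j : Fin n) (hij : i ≠ j) :
    a i - a j ∣ (Matrix.vandermonde a).det := by
  rw [Matrix.det_vandermonde]
  rcases lt_or_gt_of_ne hij with h | h
  · have h1 : a j - a i ∣ ∏ j ∈ Finset.Ioi i, (a j - a i) :=
      Finset.dvd_prod_of_mem (fun j => a j - a i) (Finset.mem_Ioi.2 h)
    have h2 : a j - a i ∣ ∏ i, ∏ j ∈ Finset.Ioi i, (a j - a i) :=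
      h1.trans (Finset.dvd_prod_of_mem (fun i => ∏ j ∈ Finset.Ioi i, (a j - a i))
        (Finset.mem_univ i))
    rwa [← neg_dvd, neg_sub]
  · have h1 : a i - a j ∣ ∏ l ∈ Finset.Ioi j, (a l - a j) :=
      Finset.dvd_prod_of_mem (fun l => a l - a j) (Finset.mem_Ioi.2 h)
    exact h1.trans (Finset.dvd_prod_of_mem (fun i => ∏ j ∈ Finset.Ioi i, (a j - a i))
        (Finset.mem_univ j))

theorem T_JFULL : P_JFULL := by
  intro k _ _ ι₀ _ g N r f hF k' _ _ _ _ K' W _ _ _ _ _ _ σ
  haveI : IsAlgClosed W := IsAlgClosure.isAlgClosed K'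
  haveI : Normal K' W := inferInstance
  -- the embedding of `k'[X]`
  let ι : k'[X] →+* W := (algebraMap K' W).comp (algebraMap k'[X] K')
  have hι : Function.Injective ι := (algebraMap K' W).injective.comp (IsFractionRing.injective k'[X] K')
  let e : k[X] →+* k'[X] := mapRingHom (algebraMap k k')
  obtain ⟨O, hO1, hO2⟩ := exists_vs ι hι
  choose a m ha ainj hdsq hd2 hdv using fun i => one_curve (K' := K') (hF.fm i) O hO1 hO2 hι
  have hcv : ∀ c : k', c ≠ 0 → O.valuation (ι (C c)) = 1 := by
    intro c hc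
    have h1 := hO1 c
    have h2 := hO1 c⁻¹
    rw [← O.valuation_le_one_iff] at h1 h2
    have h3 : ι (C c) * ι (C c⁻¹) = 1 := by
      rw [← map_mul, ← C_mul, mul_inv_cancel₀ hc, C_1, map_one]
    have h4 := congrArg O.valuation h3
    rw [map_mul, map_one] at h4
    refine le_antisymm h1 ?_
    by_contra h5
    rw [not_le] at h5
    have h6 : O.valuation (ι (C c)) * O.valuation (ι (C c⁻¹)) < 1 := by
      calc _ ≤ O.valuation (ι (C c)) * 1 := mul_le_mul' le_rfl h2
        _ < 1 := by rwa [mul_one]
    exact absurd h4 h6.ne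
  -- the splitting field
  let F : ι₀ → K'[X] := fun i => (f i).map ((algebraMap k'[X] K').comp e)
  have hFW : ∀ i, (F i).map (algebraMap K' W) = ∏ l, (X - C (a i l)) := by
    intro i
    rw [← ha i, Polynomial.map_map]; rfl
  have hsepF : ∀ i, (F i).Separable := by
    intro i
    rw [← separable_map (algebraMap K' W), hFW, separable_prod_X_sub_C_iff]
    exact ainj i
  have hF0 : ∀ i, F i ≠ 0 := fun i h0 => by
    have := hsepF i
    rw [h0] at this
    exact not_separable_zero this
  let FF : K'[X] := ∏ i, F i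
  have hFF0 : FF ≠ 0 := Finset.prod_ne_zero_iff.2 fun i _ => hF0 i
  have hspl : (FF.map (algebraMap K' W)).Splits := IsAlgClosed.splits _
  let M := IntermediateField.adjoin K' (FF.rootSet W)
  haveI hsf : IsSplittingField K' M FF := IntermediateField.adjoin_rootSet_isSplittingField hspl
  have hrootW : ∀ (i : ι₀) (x : W), aeval x (F i) = 0 ↔ ∃ l, x = a i l := by
    intro i x
    rw [aeval_def, ← eval_map, hFW, eval_prod, Finset.prod_eq_zero_iff]
    simp [sub_eq_zero]
  haveI : FiniteDimensional K' M := IsSplittingField.finiteDimensional M FF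
  haveI hsepM : Algebra.IsSeparable K' M := by
    rw [IntermediateField.isSeparable_adjoin_iff_isSeparable]
    intro x hx
    rw [mem_rootSet'] at hx
    have h1 := hx.2
    rw [show FF = ∏ i, F i from rfl, map_prod, Finset.prod_eq_zero_iff] at h1
    obtain ⟨i, _, hi⟩ := h1
    exact (hsepF i).of_dvd (minpoly.dvd K' x hi)
  haveI : Normal K' M := Normal.of_isSplittingField FF
  haveI : IsGalois K' M := ⟨⟩
  letI : Algebra k'[X] M := ((algebraMap K' M).comp (algebraMap k'[X] K')).toAlgebra
  haveI : IsScalarTower k'[X] K' M := IsScalarTower.of_algebraMap_eq fun x => rfl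
  have haM : ∀ i l, a i l ∈ M := by
    intro i l
    apply IntermediateField.subset_adjoin
    rw [mem_rootSet']
    refine ⟨(Polynomial.map_ne_zero_iff (algebraMap K' W).injective).2 hFF0, ?_⟩
    rw [show FF = ∏ i, F i from rfl, map_prod, Finset.prod_eq_zero (Finset.mem_univ i)]
    exact (hrootW i _).2 ⟨l, rfl⟩
  let b : ∀ i, Fin (2 * g i + 1) → M := fun i l => ⟨a i l, haM i l⟩
  have hroot : ∀ (i : ι₀) (x : M), aeval x (F i) = 0 ↔ ∃ l, x = b i l := by
    intro i x
    have h1 : aeval (x : W) (F i) = 0 ↔ aeval x (F i) = 0 := by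
      rw [← IntermediateField.algebraMap_apply, aeval_algebraMap_eq_zero_iff]
    rw [← h1, hrootW]
    constructor
    · rintro ⟨l, hl⟩
      exact ⟨l, Subtype.ext hl⟩
    · rintro ⟨l, hl⟩
      exact ⟨l, congrArg Subtype.val hl⟩
  have bint : ∀ i l, IsIntegral k'[X] (b i l) := by
    intro i l
    refine ⟨(f i).map e, (hF.fm i).fam.ht.mon.map _, ?_⟩
    have h1 := (hroot i (b i l)).2 ⟨l, rfl⟩
    rw [aeval_def, show F i = (f i).map ((algebraMap k'[X] K').comp e) from rfl, eval₂_map] at h1
    rw [eval₂_map]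
    exact h1
  have hperm : ∀ (i : ι₀) (s : M ≃ₐ[K'] M) (l : Fin (2 * g i + 1)), ∃ l', s (b i l) = b i l' := by
    intro i s l
    have h1 := (hroot i (b i l)).2 ⟨l, rfl⟩
    have h2 : aeval (s (b i l)) (F i) = 0 := by
      have h3 := aeval_algHom_apply (s : M →ₐ[K'] M) (b i l) (F i)
      rw [h1, map_zero] at h3
      exact h3
    exact (hroot i _).1 h2
  have hdisc : ∀ i, algebraMap k'[X] M ((-1) ^ m i * e (dsc (g i) (f i))) =
      (Matrix.vandermonde (b i)).det ^ 2 := by
    intro i
    apply (algebraMap M W).injective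
    rw [map_pow, RingHom.map_det]
    have h1 : algebraMap M W (algebraMap k'[X] M ((-1) ^ m i * e (dsc (g i) (f i)))) =
        ι ((-1) ^ m i * e (dsc (g i) (f i))) := rfl
    rw [h1]
    refine (hd2 i).trans ?_
    congr 2
  -- the key statement
  have key : ∀ (i₀ : ι₀) (x y : Fin (2 * g i₀ + 1)), x ≠ y → ∃ s : M ≃ₐ[K'] M,
      s (b i₀ x) = b i₀ y ∧ s (b i₀ y) = b i₀ x ∧ (∀ l, l ≠ x → l ≠ y → s (b i₀ l) = b i₀ l) ∧
      ∀ j, j ≠ i₀ → ∀ l, s (b j l) = b j l := by
    intro i₀ x y hxy
    obtain ⟨s, h1, h2, h3, h4⟩ := mid_full' (κ := k') K' M (b i₀) (bint i₀)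
      (fun i j h => ainj i₀ (congrArg Subtype.val h)) (hperm i₀)
      (fun p : (Σ j : {j : ι₀ // j ≠ i₀}, Fin (2 * g (j : ι₀) + 1)) => b (p.1 : ι₀) p.2)
      (fun p => bint _ _)
      (by
        intro s hs hs2
        have h1 : Algebra.adjoin K' (FF.rootSet M) = ⊤ := IsSplittingField.adjoin_rootSet M FF
        have h2 : (s : M →ₐ[K'] M) = AlgHom.id K' M := by
          apply AlgHom.ext_of_adjoin_eq_top h1
          intro z hz
          rw [mem_rootSet'] at hz
          have h3 := hz.2
          rw [show FF = ∏ i, F i from rfl, map_prod, Finset.prod_eq_zero_iff] at h3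
          obtain ⟨j, _, hj⟩ := h3
          obtain ⟨l, hl⟩ := (hroot j z).1 hj
          rw [hl]
          by_cases hji : j = i₀
          · subst hji
            exact hs l
          · exact hs2 ⟨⟨j, hji⟩, l⟩
        ext z
        have := congrArg (fun t : M →ₐ[K'] M => t z) h2
        exact congrArg _ this)
      ((-1) ^ m i₀ * e (dsc (g i₀) (f i₀)))
      (by
        rintro s ⟨⟨j, hj⟩, l⟩ hne
        obtain ⟨l', hl'⟩ := hperm j s l
        have hll : l' ≠ l := by
          rintro rfl
          exact hne hl'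
        let bb : Fin (2 * g j + 1) → integralClosure k'[X] M := fun l => ⟨b j l, bint j l⟩
        obtain ⟨c, hc⟩ := vdm_dvd bb l' l hll
        refine ⟨(-1) ^ m j * e (dsc (g j) (f j)), ((c * (Matrix.vandermonde bb).det :
          integralClosure k'[X] M) : M), ?_, (c * (Matrix.vandermonde bb).det).2, ?_⟩
        · have h5 := (hF.cop i₀ j (Ne.symm hj)).map e
          have hu : ∀ t : ℕ, IsUnit ((-1 : k'[X]) ^ t) := fun t => (isUnit_one.neg).pow t
          exact (isCoprime_mul_unit_left_left (hu _) _ _).2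
            ((isCoprime_mul_unit_left_right (hu _) _ _).2 h5)
        · rw [hdisc j]
          have h6 : (Matrix.vandermonde (b j)).det = ((Matrix.vandermonde bb).det :
              integralClosure k'[X] M) := by
            have h := RingHom.map_det (algebraMap (integralClosure k'[X] M) M)
              (Matrix.vandermonde bb)
            change _ = algebraMap (integralClosure k'[X] M) M _
            rw [h]
            congr 1
          have h7 : (Matrix.vandermonde (b j)).det = (b j l' - b j l) * (c : M) := by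
            rw [h6, hc]
            rfl
          change _ = (s (b j l) - b j l) * ((c : M) * ((Matrix.vandermonde bb).det : M))
          rw [hl', ← h6, sq]
          nth_rw 1 [h7]
          ring)
      (hdsq i₀) (hdisc i₀)
      (O.valuation.comap (algebraMap M W)) (fun c hc => hcv c hc) (fun i j h => hdv i₀ i j h) x y hxy
    exact ⟨s, h1, h2, h3, fun j hj l => h4 ⟨⟨j, hj⟩, l⟩⟩
  -- the group
  have hroot2 : ∀ (i : ι₀) (x : W), eval₂ (big k k' K' W) x (f i) = 0 ↔ ∃ l, x = a i l := by
    intro i x
    rw [← eval_map, ha i, eval_prod, Finset.prod_eq_zero_iff]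
    simp [sub_eq_zero]
  have hfin : ∀ i, Finite {x : W // eval₂ (big k k' K' W) x (f i) = 0} := by
    intro i
    refine Finite.of_surjective (fun l : Fin (2 * g i + 1) => (⟨a i l, (hroot2 i _).2 ⟨l, rfl⟩⟩ :
      {x : W // eval₂ (big k k' K' W) x (f i) = 0})) ?_
    rintro ⟨x, hx⟩
    obtain ⟨l, hl⟩ := (hroot2 i x).1 hx
    exact ⟨l, Subtype.ext hl.symm⟩
  -- one index
  have one : ∀ (i₀ : ι₀) (π : Equiv.Perm {x : W // eval₂ (big k k' K' W) x (f i₀) = 0}),
      ∃ τ : W ≃ₐ[K'] W, (∀ x : {x : W // eval₂ (big k k' K' W) x (f i₀) = 0},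
        τ (x : W) = (π x : W)) ∧ ∀ j, j ≠ i₀ → ∀ x : {x : W // eval₂ (big k k' K' W) x (f j) = 0},
          τ (x : W) = x := by
    intro i₀ π
    haveI := hfin i₀
    induction π using Equiv.Perm.swap_induction_on with
    | one => exact ⟨AlgEquiv.refl, fun x => rfl, fun j hj x => rfl⟩
    | swap_mul π x y hxy ih =>
      obtain ⟨τ, hτ, hτ2⟩ := ih
      obtain ⟨p, hp⟩ := (hroot2 i₀ x).1 x.2
      obtain ⟨q, hq⟩ := (hroot2 i₀ y).1 y.2
      have hpq : p ≠ q := by
        rintro rfl
        exact hxy (Subtype.ext (hp.trans hq.symm))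
      obtain ⟨s, h1, h2, h3, h4⟩ := key i₀ p q hpq
      have hs : ∀ z : M, (s.liftNormal W) (z : W) = ((s z : M) : W) := fun z =>
        AlgEquiv.liftNormal_commutes s W z
      have hsw : ∀ z : {x : W // eval₂ (big k k' K' W) x (f i₀) = 0},
          (s.liftNormal W) (z : W) = (Equiv.swap x y z : W) := by
        intro z
        by_cases hzx : z = x
        · rw [hzx, Equiv.swap_apply_left, hp, hq]
          exact (hs (b i₀ p)).trans (congrArg Subtype.val h1)
        by_cases hzy : z = y
        · rw [hzy, Equiv.swap_apply_right, hp, hq]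
          exact (hs (b i₀ q)).trans (congrArg Subtype.val h2)
        obtain ⟨l, hl⟩ := (hroot2 i₀ z).1 z.2
        rw [Equiv.swap_apply_of_ne_of_ne hzx hzy, hl]
        refine (hs (b i₀ l)).trans (congrArg Subtype.val (h3 l ?_ ?_))
        · rintro rfl
          exact hzx (Subtype.ext (hl.trans hp.symm))
        · rintro rfl
          exact hzy (Subtype.ext (hl.trans hq.symm))
      refine ⟨τ.trans (s.liftNormal W), fun z => ?_, fun j hj z => ?_⟩
      · rw [AlgEquiv.trans_apply, hτ, hsw]
        rfl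
      · rw [AlgEquiv.trans_apply, hτ2 j hj]
        obtain ⟨l, hl⟩ := (hroot2 j z).1 z.2
        rw [hl]
        exact (hs (b j l)).trans (congrArg Subtype.val (h4 j hj l))
  choose T hT1 hT2 using one
  -- all indices
  have all : ∀ I : Finset ι₀, ∃ τ : W ≃ₐ[K'] W, (∀ i ∈ I,
      ∀ x : {x : W // eval₂ (big k k' K' W) x (f i) = 0}, τ (x : W) = (σ i x : W)) ∧
      ∀ j, j ∉ I → ∀ x : {x : W // eval₂ (big k k' K' W) x (f j) = 0}, τ (x : W) = x := by
    intro I
    induction I using Finset.induction_on with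
    | empty =>
      exact ⟨AlgEquiv.refl, fun i hi => absurd hi (Finset.notMem_empty i), fun j _ x => rfl⟩
    | insert i I hi ih =>
      obtain ⟨τ, hτ1, hτ2⟩ := ih
      refine ⟨τ.trans (T i (σ i)), fun j hj x => ?_, fun j hj x => ?_⟩
      · rw [AlgEquiv.trans_apply]
        by_cases hji : j = i
        · subst hji
          rw [hτ2 j hi x]
          exact hT1 j (σ j) x
        · have hjI : j ∈ I := by
            rcases Finset.mem_insert.1 hj with h | h
            · exact absurd h hji
            · exact h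
          rw [hτ1 j hjI x]
          exact hT2 i (σ i) j hji (σ j x)
      · rw [Finset.mem_insert, not_or] at hj
        rw [AlgEquiv.trans_apply, hτ2 j hj.2 x]
        exact hT2 i (σ i) j hj.1 x
  obtain ⟨τ, hτ, _⟩ := all Finset.univ
  exact ⟨τ, fun i x => hτ i (Finset.mem_univ i) x⟩

end Run7.h784.JP
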