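import Pool.Agent.Run7.h286.PL.All
import Pool.Agent.Run7.h784.JP.Core
import Pool.Agent.Run7.h784.JP.JFULL
import Pool.Agent.Run7.h518.JP.JW
import Pool.Agent.Run7.h803.JP.JNSQ
import Pool.Agent.Run7.h803.JP.JNSQ2
import Pool.Agent.Run7.h908.JP.JKILL2
import Pool.Agent.Run7.h908.JP.JLAST2
import Pool.Agent.Run7.h908.JP.JNAT
import Pool.Agent.Run7.h957.JP.JS1
import Pool.Agent.Run7.h303.JP.JSTP
import Pool.Agent.Run7.h303.JP.JITR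

/-!
# Assembly of project JPL (from the piece JS0) (helper784)
-/

set_option autoImplicit false

open Polynomial
open Run7.h784.TG Run7.h286.PL

namespace Run7.h784.JP

theorem aJW : P_JW := Run7.h518.JP.T_JW Run7.h803.JP.T_JNSQ Run7.h803.JP.T_JNSQ2

theorem aJKILL2 : P_JKILL2 :=
  Run7.h908.JP.T_JKILL2 aJW Run7.h760.TG.stk aDIC Run7.h779.TG.T_COMB

theorem aJLAST2 : P_JLAST2 :=
  Run7.h908.JP.T_JLAST2 aJW aDIC Run7.h779.TG.T_COMB Run7.h760.TG.stk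

theorem aJS1 : P_JS1 :=
  Run7.h957.JP.T_JS1 aJKILL2 aJLAST2 (aEXS aEXI) aPOW aSTEP aREP aGRP

theorem aJSTP : P_JSTP := Run7.h303.JP.T_JSTP aJS1 Run7.h704.PL.T_REM

theorem aJITR : P_JITR :=
  Run7.h303.JP.T_JITR aJSTP Run7.h160.PL.mc (aAVG aW) Run7.h704.PL.T_RAN aJKILL2 aJLAST2

theorem aJNAT (h : P_JS0) : P_JNAT :=
  Run7.h908.JP.T_JNAT h aJS1 Run7.h704.PL.T_REM Run7.h704.PL.T_RAN Run7.h704.PL.T_DIV

theorem aJLAW (h : P_JS0) : P_JLAW := T_JLAW Run7.h160.PL.mc (aJNAT h) aJITR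

theorem aJFIN (h : P_JS0) : P_JFIN :=
  T_JFIN (aJLAW h) T_JFULL aBRG aEQ1 aEQ2 aREP aGRP aCONC

theorem aJFINM (h : P_JS0) (hN : P_NTM) : P_JFINM :=
  T_JFINM (T_JMEA (aJLAW h) hN Run7.h547.PL.qid) T_JFULL aBRG aEQ1 aEQ2

end Run7.h784.JP
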