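import Pool.Agent.Run7.h784.JP.Stm
import Pool.Agent.Run7.h286.PL.FIN

/-!
# Project JPL: piece JFIN (helper784)
-/

set_option autoImplicit false
set_option linter.all false

open Polynomial IsDedekindDomain Filter
open scoped Classical Topology

namespace Run7.h784.JP

open Pool.Agent.N874.PP (Ov Ev Sq1)
open Pool.Agent.N352.PJ (IsGen Crd LocIm SelZero Fam GoodR Ht dsc)
open Run7.h875.TS (chi cd IsPC GSq irrD dg NRs uT sqf prD sqL sz Tr)
open Run7.h784.TG
open Run7.h286.PL
open Run7.h68.TG (exists_pack psi_zero Pack)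

theorem dB_ne' {k : Type} [Field k] {ι : Type} [Fintype ι] {g N : ι → ℕ} {r : ι → k[X]}
    {f : ι → k[X][X]} (h : JF g N r f) : dB g f ≠ 0 :=
  Finset.prod_ne_zero_iff.2 fun i _ => (h.fm i).fam.sq.ne_zero

theorem ndvd_dB {k : Type} [Field k] {ι : Type} [Fintype ι] {g : ι → ℕ} {f : ι → k[X][X]} {D : k[X]}
    (h : IsCoprime D (dB g f)) (i : ι) (P : k[X]) (hP : Irreducible P) (hd : P ∣ D) :
    ¬ P ∣ dsc (g i) (f i) := fun h1 =>
  hP.not_isUnit (h.isUnit_of_dvd' hd (h1.trans (Finset.dvd_prod_of_mem _ (Finset.mem_univ i))))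

theorem T_JFIN (hLAW : P_JLAW) (hJFULL : P_JFULL) (hBRG : P_BRG) (hEQ1 : P_EQ1) (hEQ2 : P_EQ2)
    (hREP : P_REP) (hGRP : P_GRP) (hCONC : P_CONC) : P_JFIN := by
  intro k _ _ ι _ _ g N r f hF K _ _ _
  have h2 : (2 : k) ≠ 0 := (hF.fm (Classical.arbitrary ι)).two
  have hB : dB g f ≠ 0 := dB_ne' hF
  have pk : ∀ i, Nonempty (Pack k K (g i) (f i)) := fun i => exists_pack k K (hF.fm i)
  replace pk := fun i => (pk i).some
  have key : ∀ d : ι → ℕ, Tendsto (fun m => (((sqF (dB g f) m).filter fun D =>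
      ∀ i, dimS (pk i).O K (f i) (pk i).θ D = d i).card : ℝ) / ((sqF (dB g f) m).card : ℝ)) atTop
      (𝓝 (∏ i, (wt (d i) / ∑' j, wt j))) := by
    intro d
    have h := hLAW k ι g N r f hF (hJFULL k ι g N r f hF) K (fun i => (pk i).L)
      (fun i => (pk i).O) (fun i => (pk i).θ) (fun i => (pk i).gen)
      (fun i x => if x ∈ ({d i} : Finset ℕ) then (1 : ℝ) else 0) (fun i x => ind_le _ _)
    have h1 : ∀ i, Lw (fun x => if x ∈ ({d i} : Finset ℕ) then (1 : ℝ) else 0) =
        wt (d i) / ∑' j, wt j := by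
      intro i
      rw [Lw_ind, Finset.sum_singleton]
    simp only [h1] at h
    refine h.congr fun m => ?_
    congr 1
    rw [Finset.card_filter]
    push_cast
    refine Finset.sum_congr rfl fun D _ => ?_
    simp only [Finset.mem_singleton]
    by_cases hall : ∀ i, dimS (pk i).O K (f i) (pk i).θ D = d i
    · rw [if_pos hall]
      exact Finset.prod_eq_one fun i _ => by rw [if_pos (hall i)]
    · rw [if_neg hall]
      push Not at hall
      obtain ⟨i, hi⟩ := hall
      exact Finset.prod_eq_zero (Finset.mem_univ i) (by rw [if_neg hi])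
  refine ⟨fun d => ?_, fun ε hε => ?_⟩
  · refine (key d).congr fun m => ?_
    have h3 : (sqF (dB g f) m).filter (fun D => ∀ i, dimS (pk i).O K (f i) (pk i).θ D = d i) =
        (sqF (dB g f) m).filter fun D => ∀ i, rkJ K ((f i).scaleRoots D) = d i := by
      refine Finset.filter_congr fun D hD => ?_
      have h6 := (mem_sqF h2 hB m D).1 hD
      refine forall_congr' fun i => ?_
      rw [(hBRG k K (pk i).L (pk i).O (g i) (N i) (r i) (f i) (pk i).θ (hF.fm i) (pk i).gen D h6.1
        h6.2.2.1 (ndvd_dB h6.2.2.2 i)).2 hEQ1 hEQ2]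
    rw [h3]
  · have h1 := key (fun _ => 0)
    have h0 : ∏ i : ι, (wt ((fun _ : ι => 0) i) / ∑' j, wt j) =
        (1 / (∑' i, wt i)) ^ Fintype.card ι := by
      rw [Finset.prod_const, Finset.card_univ]
      simp [wt]
    rw [h0] at h1
    have h3 := h1.eventually (lt_mem_nhds (show (1 / (∑' i, wt i)) ^ Fintype.card ι - ε <
      (1 / (∑' i, wt i)) ^ Fintype.card ι by linarith))
    obtain ⟨N₀, h3⟩ := eventually_atTop.1 h3
    refine ⟨N₀, fun m hm => ?_⟩
    have h4 := h3 m hm
    have h5 : (((sqF (dB g f) m).filter fun D =>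
        ∀ i, dimS (pk i).O K (f i) (pk i).θ D = (fun _ : ι => 0) i).card : ℝ) ≤
        (((sqF (dB g f) m).filter fun D => ∀ i, SelZero K ((f i).scaleRoots D)).card : ℝ) := by
      exact_mod_cast Finset.card_le_card fun D hD => by
        rw [Finset.mem_filter] at hD ⊢
        refine ⟨hD.1, fun i => ?_⟩
        have h6 := (mem_sqF h2 hB m D).1 hD.1
        exact selZero_of hREP hGRP hCONC (hF.fm i) (pk i) D h6.1 h6.2.2.1 (ndvd_dB h6.2.2.2 i)
          (hD.2 i)
    rcases Nat.eq_zero_or_pos (sqF (dB g f) m).card with h0 | h0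
    · rw [h0, Nat.cast_zero, mul_zero]
      positivity
    · have h0' : (0 : ℝ) < ((sqF (dB g f) m).card : ℝ) := by exact_mod_cast h0
      rw [lt_div_iff₀ h0'] at h4
      linarith

end Run7.h784.JP
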