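import Pool.Agent.Run7.h784.JP.Core
import Pool.Agent.Run7.h784.TG.SQF3
import Pool.Agent.Run7.h160.PL.NUM

set_option autoImplicit false
set_option linter.all false

namespace Run7.h784.JPH

open Polynomial Filter IsDedekindDomain
open scoped Classical Topology
open Pool.Agent.Y713.Jac (J)
open Pool.Agent.N352.Sha (UniquelyDivisible ShaTrivial)
open Run7.h286.PL (Lw wt rkJ P_QID)

/-- For the Jacobian `J` of `y ^ 2 = F(x)` over `K = k(t)` the group `J(K)` is uniquely divisible by
two and the 2-primary part of the Tate-Shafarevich group is zero. -/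
def NoTwoPart (k : Type) {K : Type} [Field k] [Field K] [Algebra k[X] K] [IsFractionRing k[X] K]
    (F : K[X]) : Prop :=
  UniquelyDivisible 2 (J 2 F K) ∧ ShaTrivial 2 F k[X]

/-- The 2-Selmer group of the Jacobian `J` of `y ^ 2 = F(x)` over `K = k(t)`: the classes in
`H ^ 1 (K, J[2])` (continuous cocycles of the absolute Galois group) whose image in `H ^ 1 (K_v, J)` is
zero for all places `v` of `K`. -/
def Selmer2 (k : Type) {K : Type} [Field k] [Field K] [Algebra k[X] K] [IsFractionRing k[X] K]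
    (F : K[X]) : Type :=
  Run7.h286.PLC.SelH F (Run7.h286.PLC.AllPl k K)

/-- The dimension of the 2-Selmer group over the field with two elements. -/
noncomputable def selmerDim (k : Type) {K : Type} [Field k] [Field K] [Algebra k[X] K]
    [IsFractionRing k[X] K] (F : K[X]) : ℕ :=
  Nat.log 2 (Nat.card (Selmer2 k F))

/-- What the dimension `s` of the 2-Selmer group of `J` means: the group has `2 ^ s` elements, `J(K)` has
no points of order two, the index of `2 J(K)` in `J(K)` is finite and at most `2 ^ s` (so the rank is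
at most `s`), and for `s = 0` the group `J(K)` is uniquely divisible by two and the 2-primary part of the
Tate-Shafarevich group is zero. -/
structure Meaning (k : Type) {K : Type} [Field k] [Field K] [Algebra k[X] K] [IsFractionRing k[X] K]
    (F : K[X]) : Prop where
  card : Nat.card (Selmer2 k F) = 2 ^ selmerDim k F
  torsion : ∀ P : J 2 F K, P ^ 2 = 1 → P = 1
  index_ne : (powMonoidHom 2 : J 2 F K →* _).range.index ≠ 0
  index_le : (powMonoidHom 2 : J 2 F K →* _).range.index ≤ 2 ^ selmerDim k F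
  zero : selmerDim k F = 0 → NoTwoPart k F

/-- The weights of the law of Poonen and Rains. -/
noncomputable def weight (d : ℕ) : ℝ := ∏ i ∈ Finset.range d, (2 : ℝ) / (2 ^ (i + 1) - 1)

/-- The law of Poonen and Rains. -/
noncomputable def alpha (d : ℕ) : ℝ := weight d / ∑' j, weight j

section defs

variable {k : Type} [Field k]

/-- The discriminant of the monic polynomial `f` of degree `2 g + 1` in `x` over `k[t]`, up to the
sign: the resultant of `f` and its derivative. -/
noncomputable def discriminant (g : ℕ) (f : k[X][X]) : k[X] :=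
  f.resultant (derivative f) (2 * g + 1) (2 * g)

/-- `f = x ^ (2 g + 1) + f_{2 g - 1} x ^ (2 g - 1) + ... + f_0` with `deg f_j ≤ M (2 g + 1 - j)`. -/
structure HasHeight (g M : ℕ) (f : k[X][X]) : Prop where
  monic : f.Monic
  degree : f.natDegree = 2 * g + 1
  trace : f.coeff (2 * g) = 0
  height : ∀ j ≤ 2 * g, (f.coeff j).natDegree ≤ M * (2 * g + 1 - j)

/-- The reduction of `f` at infinity, the polynomial `x ^ (2 g + 1) + ∑ r_j x ^ j` over `k` where `r_j`
is the coefficient of `t ^ (M (2 g + 1 - j))` in `f_j`. -/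
noncomputable def atInfinity (g M : ℕ) (f : k[X][X]) : k[X] :=
  X ^ (2 * g + 1) + ∑ j ∈ Finset.range (2 * g + 1), C ((f.coeff j).coeff (M * (2 * g + 1 - j))) * X ^ j

/-- The family of curves: squarefree discriminant, irreducible reduction at infinity. -/
structure InFamily (g N : ℕ) (f : k[X][X]) : Prop extends HasHeight g (2 * N) f where
  inert : Irreducible (atInfinity g (2 * N) f)
  squarefree : Squarefree (discriminant g f)

variable (K : Type) [Field K] [Algebra k[X] K] [IsFractionRing k[X] K]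

/-- The monic equation `y ^ 2 = D ^ (2 g + 1) f(x / D)` of the quadratic twist `D y ^ 2 = f(x)` over
`K = k(t)`. -/
noncomputable def twist (f : k[X][X]) (D : k[X]) : K[X] := (f.scaleRoots D).map (algebraMap k[X] K)

variable {n : ℕ}

/-- The squarefree polynomials of degree `m` with leading coefficient `u` which are prime to all the
discriminants. -/
def Twists (g : Fin n → ℕ) (f : Fin n → k[X][X]) (u : k) (m : ℕ) : Set k[X] :=
  {D | D.leadingCoeff = u ∧ D.natDegree = m ∧ Squarefree D ∧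
    ∀ i, IsCoprime D (discriminant (g i) (f i))}

/-- The dimensions of the 2-Selmer groups of the Jacobians of `D y ^ 2 = f_i(x)`. -/
noncomputable def dims (f : Fin n → k[X][X]) (D : k[X]) (i : Fin n) : ℕ :=
  selmerDim k (twist K (f i) D)

variable {K}

theorem coeff_atInfinity (g M : ℕ) (f : k[X][X]) (i : ℕ) : (atInfinity g M f).coeff i =
    if i = 2 * g + 1 then 1 else if i ≤ 2 * g then (f.coeff i).coeff (M * (2 * g + 1 - i)) else 0 := by
  unfold atInfinity
  rw [coeff_add, coeff_X_pow, finset_sum_coeff]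
  simp only [coeff_C_mul, coeff_X_pow]
  by_cases h1 : i = 2 * g + 1
  · rw [if_pos h1, if_pos h1, Finset.sum_eq_zero, add_zero]
    intro j hj
    rw [if_neg (by have := Finset.mem_range.1 hj; omega), mul_zero]
  · rw [if_neg h1, if_neg h1, zero_add]
    by_cases h2 : i ≤ 2 * g
    · rw [if_pos h2, Finset.sum_eq_single i]
      · rw [if_pos rfl, mul_one]
      · intro j _ hj
        rw [if_neg (Ne.symm hj), mul_zero]
      · intro hi
        exact absurd (Finset.mem_range.2 (by omega)) hi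
    · rw [if_neg h2, Finset.sum_eq_zero]
      intro j hj
      rw [if_neg (by have := Finset.mem_range.1 hj; omega), mul_zero]

theorem InFamily.fm [Finite k] {g N : ℕ} {f : k[X][X]} (h : InFamily g N f) (hg : 1 ≤ g)
    (hN : 1 ≤ N) (h2 : (2 : k) ≠ 0) : Run7.h784.TG.Fm g N (atInfinity g (2 * N) f) f := by
  have hd : (atInfinity g (2 * N) f).natDegree = 2 * g + 1 := by
    refine natDegree_eq_of_le_of_coeff_ne_zero (natDegree_le_iff_coeff_eq_zero.2 fun i hi => ?_) ?_
    · rw [coeff_atInfinity, if_neg (by omega), if_neg (by omega)]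
    · rw [coeff_atInfinity, if_pos rfl]
      exact one_ne_zero
  refine ⟨hg, hN, h2, ⟨?_, h.inert, hd, ?_⟩, ⟨⟨h.monic, h.degree, h.trace, h.height⟩, ?_, ?_,
    h.squarefree⟩⟩
  · rw [Monic, leadingCoeff, hd, coeff_atInfinity, if_pos rfl]
  · rw [coeff_atInfinity, if_neg (by omega), if_pos le_rfl, h.trace, coeff_zero]
  · intro j hj
    rw [coeff_atInfinity, if_neg (by omega), if_pos hj]
  · intro Q hQ
    exact absurd hQ (Finset.notMem_empty Q)

theorem alpha_eq (d : ℕ) : alpha d = wt d / ∑' j, wt j := rfl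

/-- The number of elements of a subset as a sum. -/
theorem ncard_sep {α : Type} {S : Set α} (hS : S.Finite) (p : α → Prop) :
    (({D ∈ S | p D} : Set α).ncard : ℝ) = ∑ᶠ D ∈ S, if p D then (1 : ℝ) else 0 := by
  rw [finsum_mem_eq_finite_toFinset_sum _ hS, ← Finset.sum_filter, Finset.sum_const, nsmul_eq_mul,
    mul_one]
  have h : ({D ∈ S | p D} : Set α) = ((hS.toFinset.filter p : Finset α) : Set α) := by
    ext D
    simp
  rw [h, Set.ncard_coe_finset]

theorem main (hM : Run7.h784.JP.P_JFINM) (hQ : P_QID) (hNUM : Run7.h286.PL.P_NUM)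
    (hT : Run7.h286.PLC.P_TRU)
    (hZ : ∀ (k : Type) [Field k] [Finite k] (g N : ℕ) (r : k[X]) (f : k[X][X]),
      Run7.h784.TG.Fm g N r f →
      ∀ (K : Type) [Field K] [Algebra k[X] K] [IsFractionRing k[X] K] (D : k[X]), D.Monic →
      Squarefree D → IsCoprime D (Pool.Agent.N352.PJ.dsc g f) → rkJ K (f.scaleRoots D) = 0 →
      Pool.Agent.N352.PJ.SelZero K (f.scaleRoots D))
    (k : Type) [Field k] [Finite k] (h2 : (2 : k) ≠ 0)
    (K : Type) [Field K] [Algebra k[X] K] [IsFractionRing k[X] K] (n : ℕ) (hn : 1 ≤ n)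
    (g N : Fin n → ℕ) (hg : ∀ i, 1 ≤ g i) (hN : ∀ i, 1 ≤ N i) (f : Fin n → k[X][X])
    (hf : ∀ i, InFamily (g i) (N i) (f i))
    (hc : ∀ i j, i ≠ j → IsCoprime (discriminant (g i) (f i)) (discriminant (g j) (f j)))
    (u : k) (hu : u ≠ 0) :
    (∃ c : ℝ, 0 < c ∧ ∀ᶠ m : ℕ in atTop, c * (Nat.card k : ℝ) ^ m ≤ ((Twists g f u m).ncard : ℝ)) ∧
    (∀ (m : ℕ), ∀ D ∈ Twists g f u m, ∀ i, Meaning k (twist K (f i) D)) ∧
    (∀ φ : (Fin n → ℕ) → ℝ, (∃ C y : ℝ, ∀ d, |φ d| ≤ C * y ^ (∑ i, d i)) →
      Tendsto (fun m => (∑ᶠ D ∈ Twists g f u m, φ (dims K f D)) / ((Twists g f u m).ncard : ℝ))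
        atTop (𝓝 (∑' d : Fin n → ℕ, φ d * ∏ i, alpha (d i)))) ∧
    (∀ d : Fin n → ℕ, Tendsto (fun m => (({D ∈ Twists g f u m | dims K f D = d} : Set _).ncard : ℝ) /
      ((Twists g f u m).ncard : ℝ)) atTop (𝓝 (∏ i, alpha (d i)))) ∧
    Tendsto (fun m => (∑ᶠ D ∈ Twists g f u m, ∏ i, (Nat.card (Selmer2 k (twist K (f i) D)) : ℝ)) /
      ((Twists g f u m).ncard : ℝ)) atTop (𝓝 (3 ^ n)) ∧
    ∀ᶠ m : ℕ in atTop, (0.2097 : ℝ) ^ n * ((Twists g f u m).ncard : ℝ) ≤
      (({D ∈ Twists g f u m | ∀ i, NoTwoPart k (twist K (f i) D)} : Set _).ncard : ℝ) := by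
  haveI : Nonempty (Fin n) := ⟨⟨0, hn⟩⟩
  have hF : Run7.h784.JP.JF g N (fun i => atInfinity (g i) (2 * N i) (f i)) f :=
    ⟨h2, fun i => (hf i).fm (hg i) (hN i) h2, hc⟩
  have hTw : ∀ m, Twists g f u m = Run7.h784.JP.TwJ g f u m := fun m => rfl
  have hfin : ∀ m, (Twists g f u m).Finite := fun m => Run7.h784.JP.twJ_fin hF hu m
  have hone : ∀ (m : ℕ), ∀ D ∈ Twists g f u m, ∀ i, Nat.card (Selmer2 k (twist K (f i) D)) =
      2 ^ rkJ K ((f i).scaleRoots D) ∧ Meaning k (twist K (f i) D) := by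
    intro m D hD i
    have h := Run7.h286.PL.one_tw hT hZ (hF.fm i) K hu (m := m) (D := D)
      ⟨hD.1, hD.2.1, hD.2.2.1, hD.2.2.2 i⟩
    have h1 : selmerDim k (twist K (f i) D) = rkJ K ((f i).scaleRoots D) := by
      unfold selmerDim Selmer2 twist
      rw [h.1, Nat.log_pow (by norm_num)]
    refine ⟨h.1, ⟨?_, h.2.1, h.2.2.1, ?_, fun h0 => ?_⟩⟩
    · rw [h1]
      exact h.1
    · rw [h1]
      exact h.2.2.2.1
    · rw [h1] at h0
      exact h.2.2.2.2 h0
  have hdims : ∀ (m : ℕ), ∀ D ∈ Twists g f u m,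
      dims K f D = fun i => rkJ K ((f i).scaleRoots D) := by
    intro m D hD
    funext i
    show selmerDim k (twist K (f i) D) = _
    unfold selmerDim
    rw [(hone m D hD i).1, Nat.log_pow (by norm_num)]
  have hmean : ∀ φ : (Fin n → ℕ) → ℝ, (∃ C y : ℝ, ∀ d, |φ d| ≤ C * y ^ (∑ i, d i)) →
      Tendsto (fun m => (∑ᶠ D ∈ Twists g f u m, φ (dims K f D)) / ((Twists g f u m).ncard : ℝ))
        atTop (𝓝 (∑' d : Fin n → ℕ, φ d * ∏ i, alpha (d i))) := by
    intro φ hφ
    refine (Run7.h784.JP.mean_twJ hM hF K hu φ hφ).congr fun m => ?_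
    rw [← hTw]
    congr 1
    exact finsum_mem_congr rfl fun D hD => by rw [hdims m D hD]
  have hlaw : ∀ d : Fin n → ℕ,
      Tendsto (fun m => (({D ∈ Twists g f u m | dims K f D = d} : Set _).ncard : ℝ) /
      ((Twists g f u m).ncard : ℝ)) atTop (𝓝 (∏ i, alpha (d i))) := by
    intro d
    have h := hmean (fun x => if x = d then (1 : ℝ) else 0) ⟨1, 1, fun x => by
      split_ifs <;> simp⟩
    have h1 : ∑' x : Fin n → ℕ, (if x = d then (1 : ℝ) else 0) * ∏ i, alpha (x i) =
        ∏ i, alpha (d i) := by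
      rw [tsum_eq_single d (fun x hx => by rw [if_neg hx, zero_mul]), if_pos rfl, one_mul]
    rw [h1] at h
    refine h.congr fun m => ?_
    rw [ncard_sep (hfin m)]
    congr 1
    refine finsum_mem_congr rfl fun D _ => ?_
    by_cases hh : dims K f D = d
    · rw [if_pos hh, if_pos hh]
    · rw [if_neg hh, if_neg hh]
  have hW : 0 < ∑' j, wt j := by
    have := (abs_lt.1 hNUM.2.2.2.1).1
    linarith
  refine ⟨?_, fun m D hD i => (hone m D hD i).2, hmean, hlaw, ?_, ?_⟩
  · have hF' := Run7.h784.JP.jf_scale hF hu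
    obtain ⟨hfin', c, hc, N₀, h⟩ := Run7.h784.TG.T_SQF3 k h2 _ (Run7.h784.JP.dB_ne' hF')
    refine ⟨c, hc, ?_⟩
    filter_upwards [eventually_ge_atTop N₀] with m hm
    rw [hTw, Run7.h784.JP.ncard_twJ hF hu]
    refine (h m hm).trans (le_of_eq ?_)
    rw [← Run7.h286.PL.coe_sqF h2 (Run7.h784.JP.dB_ne' hF'), Set.ncard_coe_finset]
  · have h := hmean (fun d => ∏ i, (2 : ℝ) ^ d i) ⟨1, 2, fun d => by
      rw [Finset.prod_pow_eq_pow_sum, one_mul, abs_of_nonneg (by positivity)]⟩
    have h1 : ∑' d : Fin n → ℕ, (∏ i, (2 : ℝ) ^ d i) * ∏ i, alpha (d i) = 3 ^ n := by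
      simp only [← Finset.prod_mul_distrib]
      rw [Run7.h784.JP.tsum_pi (fun (_ : Fin n) d => (2 : ℝ) ^ d * alpha d) (fun _ d => ?_)
        fun _ => ?_]
      · have h3 : ∑' d, (2 : ℝ) ^ d * alpha d = 3 := by
          have h4 := hQ.2.1 1
          norm_num [Lw] at h4
          rw [← h4, ← tsum_div_const]
          refine tsum_congr fun d => ?_
          rw [alpha_eq]
          ring
        simp only [h3]
        rw [Finset.prod_const, Finset.card_univ, Fintype.card_fin]
      · rw [alpha_eq]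
        exact mul_nonneg (by positivity) (div_nonneg (hNUM.1 d).le hW.le)
      · refine ((hQ.1 2).div_const (∑' j, wt j)).congr fun d => ?_
        rw [alpha_eq]
        ring
    rw [h1] at h
    refine h.congr fun m => ?_
    congr 1
    refine finsum_mem_congr rfl fun D hD => Finset.prod_congr rfl fun i _ => ?_
    rw [hdims m D hD, (hone m D hD i).1]
    push_cast
    rfl
  · have h := hlaw fun _ => 0
    rw [Finset.prod_const, Finset.card_univ, Fintype.card_fin] at h
    have h0 : (0.2097 : ℝ) < alpha 0 := by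
      rw [alpha_eq, lt_div_iff₀ hW]
      have h3 := (abs_lt.1 hNUM.2.2.2.1).2
      have h4 : wt 0 = 1 := by simp [wt]
      rw [h4]
      linarith
    have h3 : (0.2097 : ℝ) ^ n < alpha 0 ^ n := pow_lt_pow_left₀ h0 (by norm_num) (by omega)
    filter_upwards [h.eventually (lt_mem_nhds h3)] with m hm
    have h5 : (({D ∈ Twists g f u m | dims K f D = fun _ => 0} : Set k[X]).ncard : ℝ) ≤
        (({D ∈ Twists g f u m | ∀ i, NoTwoPart k (twist K (f i) D)} : Set k[X]).ncard : ℝ) := by
      have hsub : ({D ∈ Twists g f u m | dims K f D = fun _ => 0} : Set k[X]) ⊆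
          ({D ∈ Twists g f u m | ∀ i, NoTwoPart k (twist K (f i) D)} : Set k[X]) := fun D hD =>
        ⟨hD.1, fun i => (hone m D hD.1 i).2.zero (congrFun hD.2 i)⟩
      exact_mod_cast Set.ncard_le_ncard hsub ((hfin m).subset (Set.sep_subset _ _))
    refine le_trans ?_ h5
    rcases Nat.eq_zero_or_pos (Twists g f u m).ncard with h6 | h6
    · rw [h6, Nat.cast_zero, mul_zero]
      positivity
    · have h7 : (0 : ℝ) < ((Twists g f u m).ncard : ℝ) := by exact_mod_cast h6
      rw [lt_div_iff₀ h7] at hm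
      exact hm.le

end defs

end Run7.h784.JPH
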