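import Pool.Agent.Run7.h781.TG.Abs

/-!
# Project JPL, piece JFULL: the joint geometric Galois group, abstract part

Adapted from `Run7/h781/TG/Abs.lean` (helper781): the elements `b x` are the zeros of the other
polynomials, which are distinct modulo the primes in question.
-/

set_option autoImplicit false
set_option linter.all false

open Polynomial
open scoped Classical

namespace Run7.h784.JP

open Run7.h781.TG

section

variable {κ : Type} [Field κ] [IsAlgClosed κ] {B : Type} [CommRing B] [Algebra κ[X] B]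
variable {G : Type} [Group G] [Finite G] [MulSemiringAction G B]

/-- **Local statement.** If two zeros collide modulo a prime, the group contains their
transposition. -/
theorem loc' [IsDomain B] [IsDedekindDomain B]
    (hinj : Function.Injective (algebraMap κ[X] B)) [Algebra.IsIntegral κ[X] B]
    (hact : ∀ (s : G) (q : κ[X]), s • algebraMap κ[X] B q = algebraMap κ[X] B q)
    (hinv : ∀ x : B, (∀ s : G, s • x = x) → ∃ q : κ[X], algebraMap κ[X] B q = x)
    {n : ℕ} (a : Fin n → B) (ainj : Function.Injective a)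
    (hperm : ∀ (s : G) (i : Fin n), ∃ j, s • a i = a j)
    {β : Type} (b : β → B)
    (hfaith : ∀ s : G, (∀ i, s • a i = a i) → (∀ x, s • b x = b x) → s = 1) (d : κ[X])
    (hb : ∀ (P : Ideal B), P.IsPrime → algebraMap κ[X] B d ∈ P → ∀ (s : G) (x : β),
      s • b x - b x ∈ P → s • b x = b x) (hsq : Squarefree d)
    (hd : algebraMap κ[X] B d = (Matrix.vandermonde a).det ^ 2)
    (P : Ideal B) [hP : P.IsPrime] (i j : Fin n) (hij : i ≠ j) (hP2 : a i - a j ∈ P) :
    ∃ s : G, s • a i = a j ∧ s • a j = a i ∧ (∀ l, l ≠ i → l ≠ j → s • a l = a l) ∧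
      ∀ x, s • b x = b x := by
  -- `(a i - a j) ^ 2` divides `d`
  have hdvd : a i - a j ∣ (Matrix.vandermonde a).det := by
    rw [Matrix.det_vandermonde]
    rcases lt_or_gt_of_ne hij with h | h
    · have h1 : a j - a i ∣ ∏ j ∈ Finset.Ioi i, (a j - a i) :=
        Finset.dvd_prod_of_mem (fun j => a j - a i) (Finset.mem_Ioi.2 h)
      have h2 : a j - a i ∣ ∏ i, ∏ j ∈ Finset.Ioi i, (a j - a i) :=
        h1.trans (Finset.dvd_prod_of_mem (fun i => ∏ j ∈ Finset.Ioi i, (a j - a i))
          (Finset.mem_univ i))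
      rwa [← neg_dvd, neg_sub]
    · have h1 : a i - a j ∣ ∏ l ∈ Finset.Ioi j, (a l - a j) :=
        Finset.dvd_prod_of_mem (fun l => a l - a j) (Finset.mem_Ioi.2 h)
      exact h1.trans (Finset.dvd_prod_of_mem (fun i => ∏ j ∈ Finset.Ioi i, (a j - a i))
          (Finset.mem_univ j))
  have hV : (Matrix.vandermonde a).det ∈ P := P.mem_of_dvd hdvd hP2
  have hdP2 : algebraMap κ[X] B d ∈ P ^ 2 := by
    rw [hd]; exact Ideal.pow_mem_pow hV 2
  have hdP : algebraMap κ[X] B d ∈ P := Ideal.pow_le_self two_ne_zero hdP2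
  have hd0 : d ≠ 0 := hsq.ne_zero
  -- the zero `τ` of `d` under `P`
  obtain ⟨τ, hτ⟩ : ∃ τ : κ, algebraMap κ[X] B (X - C τ) ∈ P := by
    have h1 := (IsAlgClosed.splits d).eq_prod_roots
    rw [h1, map_mul, map_multiset_prod, Multiset.map_map] at hdP
    rcases hP.mem_or_mem hdP with h2 | h2
    · exfalso
      have h3 : IsUnit (C d.leadingCoeff : κ[X]) :=
        isUnit_C.2 (isUnit_iff_ne_zero.2 (leadingCoeff_ne_zero.2 hd0))
      exact hP.ne_top (P.eq_top_of_isUnit_mem h2 (h3.map _))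
    · obtain ⟨x, hx, hx2⟩ := Ideal.IsPrime.multiset_prod_mem_iff_exists_mem hP _ |>.1 h2
      rw [Multiset.mem_map] at hx
      obtain ⟨c, _, rfl⟩ := hx
      exact ⟨c, hx2⟩
  have hsq2 : ¬ (X - C τ) ^ 2 ∣ d := by
    intro h
    rw [sq] at h
    exact not_isUnit_X_sub_C τ (hsq _ h)
  -- `X - τ` is in `P ^ 2`
  have hπ : algebraMap κ[X] B (X - C τ) ∈ P ^ 2 := by
    obtain ⟨e, he⟩ := dvd_of_mem P τ hτ d hdP
    rw [he, map_mul, mul_comm] at hdP2
    rcases Ideal.IsPrime.mul_mem_pow P hdP2 with h | h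
    · exfalso
      obtain ⟨e', he'⟩ := dvd_of_mem P τ hτ e h
      exact hsq2 ⟨e', by rw [he, he', sq, mul_assoc]⟩
    · exact h
  have hP0 : P ≠ ⊥ := by
    intro h
    rw [h, Ideal.mem_bot, map_eq_zero_iff _ hinj] at hτ
    exact X_sub_C_ne_zero τ hτ
  -- a nontrivial element of the stabiliser
  obtain ⟨s, hs1, hsP⟩ : ∃ s : G, s ≠ 1 ∧ ∀ x ∈ P, s • x ∈ P := by
    by_contra hcon
    push Not at hcon
    exact not_mem_sq hinv P hP0 τ hτ hcon hπ
  have hin : ∀ x : B, s • x - x ∈ P := by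
    intro x
    obtain ⟨c, hc⟩ := exists_const P τ hτ x
    have h1 := hsP _ hc
    rw [smul_sub, hact] at h1
    have h2 := P.sub_mem h1 hc
    rwa [sub_sub_sub_cancel_right] at h2
  have hsb : ∀ x, s • b x = b x := fun x => hb P hP hdP s x (hin _)
  choose π hπ' using hperm s
  -- only `i` and `j` collide
  have hcoll : ∀ l m : Fin n, l ≠ m → a l - a m ∈ P → (l = i ∧ m = j) ∨ (l = j ∧ m = i) := by
    intro l m hlm hlP
    by_contra hcon
    push Not at hcon
    apply hsq2
    have hP2' : a j - a i ∈ P := by rw [← neg_sub]; exact P.neg_mem hP2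
    have hlP' : a m - a l ∈ P := by rw [← neg_sub]; exact P.neg_mem hlP
    have T := fun p q p' q' => two_coll hinj hact hinv a ainj hperm d hd P τ hτ p q p' q'
    by_cases h1 : l = i
    · subst h1
      have h2 : m ≠ j := hcon.1 rfl
      exact T j m l l h2.symm hij hlm hij hlm hP2' hlP'
    by_cases h2 : l = j
    · subst h2
      have h3 : m ≠ i := hcon.2 rfl
      exact T i m l l h3.symm hij.symm hlm hij.symm hlm hP2 hlP'
    by_cases h3 : m = i
    · subst h3
      exact T j l m m (Ne.symm h2) hij (Ne.symm hlm) hij (Ne.symm hlm) hP2' hlP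
    by_cases h4 : m = j
    · subst h4
      exact T i l m m (Ne.symm h1) hij.symm (Ne.symm hlm) hij.symm (Ne.symm hlm) hP2 hlP
    exact T i l j m (Ne.symm h1) hij.symm (Ne.symm h2) h3 (Ne.symm hlm) hP2 hlP
  have hmv : ∀ x, π x ≠ x → (π x = i ∧ x = j) ∨ (π x = j ∧ x = i) := by
    intro x hx
    refine hcoll (π x) x hx ?_
    rw [← hπ']
    exact hin _
  have hfix : ∀ x, x ≠ i → x ≠ j → π x = x := by
    intro x h1 h2
    by_contra h3
    rcases hmv x h3 with h | h
    · exact h2 h.2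
    · exact h1 h.2
  have hinjπ : ∀ x y, π x = π y → x = y := by
    intro x y h
    have h1 : s • a x = s • a y := by rw [hπ', hπ', h]
    exact ainj (MulAction.injective s h1)
  obtain ⟨l, hl⟩ : ∃ l, π l ≠ l := by
    by_contra hcon
    push Not at hcon
    exact hs1 (hfaith s (fun x => by rw [hπ', hcon]) hsb)
  have hi : π i = j := by
    by_contra h
    have h1 : π i = i := by
      by_contra h2
      rcases hmv i h2 with h3 | h3
      · exact hij h3.2
      · exact h h3.1
    rcases hmv l hl with h2 | h2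
    · have := hinjπ l i (by rw [h1, h2.1])
      rw [this] at hl
      exact hl h1
    · rw [h2.2] at hl
      exact hl h1
  have hj : π j = i := by
    by_contra h
    have h1 : π j = j := by
      by_contra h2
      rcases hmv j h2 with h3 | h3
      · exact h h3.1
      · exact hij h3.2.symm
    exact hij (hinjπ i j (by rw [hi, h1]))
  exact ⟨s, by rw [hπ', hi], by rw [hπ', hj], fun x h1 h2 => by rw [hπ', hfix x h1 h2], hsb⟩

/-- **The geometric Galois group.** -/
theorem abs_full' [IsDomain B] [IsDedekindDomain B]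
    (hinj : Function.Injective (algebraMap κ[X] B)) [Algebra.IsIntegral κ[X] B]
    (hact : ∀ (s : G) (q : κ[X]), s • algebraMap κ[X] B q = algebraMap κ[X] B q)
    (hinv : ∀ x : B, (∀ s : G, s • x = x) → ∃ q : κ[X], algebraMap κ[X] B q = x)
    {n : ℕ} (a : Fin n → B) (ainj : Function.Injective a)
    (hperm : ∀ (s : G) (i : Fin n), ∃ j, s • a i = a j)
    {β : Type} (b : β → B)
    (hfaith : ∀ s : G, (∀ i, s • a i = a i) → (∀ x, s • b x = b x) → s = 1) (d : κ[X])
    (hb : ∀ (P : Ideal B), P.IsPrime → algebraMap κ[X] B d ∈ P → ∀ (s : G) (x : β),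
      s • b x - b x ∈ P → s • b x = b x) (hsq : Squarefree d)
    (hd : algebraMap κ[X] B d = (Matrix.vandermonde a).det ^ 2)
    {Γ : Type} [LinearOrderedCommGroupWithZero Γ] (v : Valuation B Γ)
    (hv1 : ∀ c : κ, c ≠ 0 → v (algebraMap κ[X] B (C c)) = 1)
    (hv2 : ∀ i j : Fin n, i ≠ j → 1 < v (a i - a j)) (i j : Fin n) (hij : i ≠ j) :
    ∃ s : G, s • a i = a j ∧ s • a j = a i ∧ (∀ l, l ≠ i → l ≠ j → s • a l = a l) ∧
      ∀ x, s • b x = b x := by
  haveI : Fintype G := Fintype.ofFinite G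
  by_contra hcon
  -- the relation
  let Rel : Fin n → Fin n → Prop := fun i j =>
    ∃ s : G, s • a i = a j ∧ s • a j = a i ∧ (∀ l, l ≠ i → l ≠ j → s • a l = a l) ∧
      ∀ x, s • b x = b x
  have hRsymm : ∀ x y, Rel x y → Rel y x := by
    rintro x y ⟨s, h1, h2, h3, hsb⟩
    exact ⟨s, h2, h1, fun l h4 h5 => h3 l h5 h4, hsb⟩
  have hRtrans : ∀ x y z, x ≠ y → y ≠ z → x ≠ z → Rel x y → Rel y z → Rel x z := by
    rintro x y z hxy hyz hxz ⟨s, h1, h2, h3, hsb⟩ ⟨t, h4, h5, h6, htb⟩
    refine ⟨s * t * s, ?_, ?_, fun l h7 h8 => ?_, fun x => by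
      rw [mul_smul, mul_smul, hsb, htb, hsb]⟩
    · rw [mul_smul, mul_smul, h1, h4, h3 z hxz.symm hyz.symm]
    · rw [mul_smul, mul_smul, h3 z hxz.symm hyz.symm, h5, h2]
    · rw [mul_smul, mul_smul]
      by_cases h9 : l = y
      · rw [h9, h2, h6 x hxy hxz, h1]
      · rw [h3 l h7 h9, h6 l h9 h8, h3 l h7 h9]
  -- the class of `i`
  let Cl : Finset (Fin n) := Finset.univ.filter fun x => x = i ∨ Rel x i
  have hiC : i ∈ Cl := by simp [Cl]
  have hjC : j ∉ Cl := by
    simp only [Cl, Finset.mem_filter, Finset.mem_univ, true_and, not_or]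
    exact ⟨hij.symm, fun h => hcon (hRsymm _ _ h)⟩
  have hC : ∀ x ∈ Cl, ∀ y ∉ Cl, ¬ Rel x y := by
    intro x hx y hy hxy
    simp only [Cl, Finset.mem_filter, Finset.mem_univ, true_and, not_or] at hx hy
    have hxy' : x ≠ y := by
      rintro rfl
      rcases hx with h | h
      · exact hy.1 h
      · exact hy.2 h
    rcases hx with h | h
    · subst h
      exact hy.2 (hRsymm _ _ hxy)
    · by_cases hxi : x = i
      · subst hxi
        exact hy.2 (hRsymm _ _ hxy)
      · exact hy.2 (hRtrans y x i hxy'.symm hxi hy.1 (hRsymm _ _ hxy) h)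
  -- the unit
  let R : B := ∏ x ∈ Cl, ∏ y ∈ Clᶜ, (a x - a y)
  have hRu : IsUnit R := by
    by_contra h
    obtain ⟨P, hP, hRP⟩ := exists_max_ideal_of_mem_nonunits h
    haveI := hP.isPrime
    obtain ⟨x, hx, hx2⟩ := hP.isPrime.prod_mem_iff.1 hRP
    obtain ⟨y, hy, hy2⟩ := hP.isPrime.prod_mem_iff.1 hx2
    rw [Finset.mem_compl] at hy
    have hxy : x ≠ y := by rintro rfl; exact hy hx
    exact hC x hx y hy (loc' hinj hact hinv a ainj hperm b hfaith d hb hsq hd P x y hxy hy2)
  have hNu : ∃ c : κ, c ≠ 0 ∧ algebraMap κ[X] B (C c) = ∏ s : G, s • R := by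
    have hI : ∀ z : B, ∃ q : κ[X], algebraMap κ[X] B q = ∏ s : G, s • z := by
      intro z
      apply hinv
      intro t
      rw [Finset.smul_prod']
      refine Fintype.prod_equiv (Equiv.mulLeft t) _ _ fun s => ?_
      simp [mul_smul]
    obtain ⟨S, hS⟩ := hRu.exists_right_inv
    obtain ⟨q, hq⟩ := hI R
    obtain ⟨q', hq'⟩ := hI S
    have h1 : q * q' = 1 := by
      apply hinj
      rw [map_mul, map_one, hq, hq', ← Finset.prod_mul_distrib]
      refine Finset.prod_eq_one fun s _ => ?_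
      rw [← smul_mul', hS, smul_one]
    have h2 : IsUnit q := IsUnit.of_mul_eq_one _ h1
    obtain ⟨c, hc, hc2⟩ := Polynomial.isUnit_iff.1 h2
    exact ⟨c, hc.ne_zero, by rw [hc2, hq]⟩
  obtain ⟨c, hc0, hc⟩ := hNu
  have h1 := hv1 c hc0
  rw [hc, map_prod] at h1
  have h2 : ∀ s : G, 1 < v (s • R) := by
    intro s
    have h3 : s • R = ∏ x ∈ Cl, ∏ y ∈ Clᶜ, (s • a x - s • a y) := by
      simp only [R, Finset.smul_prod', smul_sub]
    rw [h3, map_prod]
    simp_rw [map_prod]
    have hpos : ∀ x y, x ≠ y → 1 < v (s • a x - s • a y) := by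
      intro x y hxy
      obtain ⟨x', hx'⟩ := hperm s x
      obtain ⟨y', hy'⟩ := hperm s y
      rw [hx', hy']
      apply hv2
      rintro rfl
      exact hxy (ainj (MulAction.injective s (hx'.trans hy'.symm)))
    refine one_lt_prod _ _ ⟨i, hiC⟩ fun x hx => one_lt_prod _ _ ⟨j, Finset.mem_compl.2 hjC⟩ ?_
    intro y hy
    apply hpos
    rintro rfl
    exact (Finset.mem_compl.1 hy) hx
  have h3 := one_lt_prod (Finset.univ : Finset G) (fun s => v (s • R)) ⟨1, Finset.mem_univ _⟩
    fun s _ => h2 s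
  rw [h1] at h3
  exact lt_irrefl _ h3

end

end Run7.h784.JP
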