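import Pool.Agent.Run7.h784.JP.Stm
import Pool.Agent.Run7.h303.PL.LAW
import Pool.Agent.Run7.h303.PL.ITR

/-!
# Project JPL: piece JLAW (helper784)
-/

set_option autoImplicit false
set_option linter.all false

open Polynomial IsDedekindDomain Filter
open scoped Classical

namespace Run7.h784.JP

open Pool.Agent.N874.PP (Ov Ev Sq1)
open Pool.Agent.N352.PJ (IsGen Crd LocIm SelZero Fam GoodR Ht dsc)
open Run7.h875.TS (chi cd IsPC GSq irrD dg NRs uT sqf prD sqL sz Tr)
open Run7.h784.TG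
open Run7.h286.PL (RelC ld del0 del1 wt Lw Mk Mz dimS sqF wD SelJ rkJ P_MC)

/-- The product of the discriminants is not zero. -/
theorem dB_ne {k : Type} [Field k] {ι : Type} [Fintype ι] {g N : ι → ℕ} {r : ι → k[X]}
    {f : ι → k[X][X]} (h : JF g N r f) : dB g f ≠ 0 :=
  Finset.prod_ne_zero_iff.2 fun i _ => (h.fm i).fam.sq.ne_zero

section av

variable {k : Type} [Field k] {ι : Type} [Fintype ι] {L : ι → Type} [∀ i, Field (L i)]
  [∀ i, Algebra k[X] (L i)] (O : ι → Type) [∀ i, CommRing (O i)] [∀ i, IsDedekindDomain (O i)]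
  [∀ i, Algebra (O i) (L i)] [∀ i, IsFractionRing (O i) (L i)] [∀ i, Algebra k[X] (O i)]
  (K : Type) [Field K] [∀ i, Algebra K (L i)]

theorem avJ_const (f : ι → k[X][X]) (θ : ∀ i, L i) (nrs : k[X] → k[X]) (c : ℝ) (S : Finset k[X]) :
    avJ O K f θ nrs (fun _ => c) S = c := by
  unfold avJ
  rw [Finset.sum_const, Finset.card_powerset, nsmul_eq_mul]
  push_cast
  rw [← mul_assoc, ← mul_pow]
  norm_num

end av

/-- The partially averaged product. -/
noncomputable def phiI {ι : Type} [Fintype ι] (ψ : ι → ℕ → ℝ) (I : Finset ι) (d : ι → ℕ) : ℝ :=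
  ∏ i, if i ∈ I then Lw (ψ i) else ψ i (d i)

theorem phiI_le (hMC : P_MC) {ι : Type} [Fintype ι] {ψ : ι → ℕ → ℝ} (hψ : ∀ i d, |ψ i d| ≤ 1)
    (I : Finset ι) (d : ι → ℕ) : |phiI ψ I d| ≤ 1 := by
  unfold phiI
  rw [Finset.abs_prod]
  refine Finset.prod_le_one (fun i _ => abs_nonneg _) fun i _ => ?_
  split_ifs
  · exact Run7.h303.PL.lw_le hMC (hψ i)
  · exact hψ i _

theorem Lw_mul (c : ℝ) (ψ : ℕ → ℝ) : Lw (fun x => c * ψ x) = c * Lw ψ := by
  unfold Lw
  rw [mul_div_assoc', ← tsum_mul_left]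
  congr 2
  funext d
  ring

theorem LwJ_phiI {ι : Type} [Fintype ι] (ψ : ι → ℕ → ℝ) (I : Finset ι) {i : ι} (hi : i ∉ I) :
    LwJ i (phiI ψ I) = phiI ψ (insert i I) := by
  funext d
  unfold LwJ
  have h1 : (fun x => phiI ψ I (Function.update d i x)) = fun x =>
      (∏ j ∈ (Finset.univ : Finset ι).erase i, if j ∈ I then Lw (ψ j) else ψ j (d j)) * ψ i x := by
    funext x
    unfold phiI
    rw [← Finset.mul_prod_erase _ _ (Finset.mem_univ i), if_neg hi, Function.update_self, mul_comm]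
    congr 1
    refine Finset.prod_congr rfl fun j hj => ?_
    rw [Function.update_of_ne (Finset.ne_of_mem_erase hj)]
  rw [h1, Lw_mul]
  unfold phiI
  rw [← Finset.mul_prod_erase _ _ (Finset.mem_univ i), if_pos (Finset.mem_insert_self _ _), mul_comm]
  congr 1
  refine Finset.prod_congr rfl fun j hj => ?_
  have h2 : j ∈ insert i I ↔ j ∈ I := by
    rw [Finset.mem_insert, or_iff_right (Finset.ne_of_mem_erase hj)]
  simp only [h2]

theorem T_JLAW (hMC : P_MC) (hJNAT : P_JNAT) (hJITR : P_JITR) : P_JLAW := by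
  intro k _ _ ι _ hne g N r f hF hFull K _ _ _ L O _ _ _ _ _ _ _ _ _ _ _ θ hθ ψ hψ
  have h2 : (2 : k) ≠ 0 := by
    obtain ⟨i⟩ := hne
    exact (hF.fm i).two
  obtain ⟨nrs, hnrs⟩ := Run7.h303.PL.exists_NRs2 k h2
  obtain ⟨hfin, c, hc, N₁, hN₁⟩ := T_SQF3 k h2 (dB g f) (dB_ne hF)
  have hq := Run7.h303.PL.q_three h2
  have hcard : ∀ m, ((sqF (dB g f) m).card : ℝ) = ((sqf (dB g f) m).ncard : ℝ) := by
    intro m
    rw [Set.ncard_eq_toFinset_card _ (hfin m)]
    unfold sqF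
    rw [dif_pos (hfin m)]
  have hI : ∀ I : Finset ι, ∀ ε : ℝ, 0 < ε → ∃ N₀ : ℕ, ∀ m ≥ N₀,
      |∑ D ∈ sqF (dB g f) m, (avJ O K f θ nrs (phiI ψ ∅) (prD D) -
        avJ O K f θ nrs (phiI ψ I) (prD D))| ≤ ε * (Nat.card k : ℝ) ^ m := by
    intro I
    induction I using Finset.induction_on with
    | empty =>
      intro ε hε
      refine ⟨0, fun m _ => ?_⟩
      simp only [sub_self, Finset.sum_const_zero, abs_zero]
      positivity
    | insert i I hi ih =>
      intro ε hε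
      obtain ⟨N₂, hN₂⟩ := ih (ε / 2) (by positivity)
      obtain ⟨N₃, hN₃⟩ := hJITR k ι g N r f hF hFull K L O θ hθ nrs hnrs i (phiI ψ I)
        (phiI_le hMC hψ I) (ε / 2) (by positivity)
      refine ⟨max N₂ N₃, fun m hm => ?_⟩
      have h3 := hN₂ m (le_trans (le_max_left _ _) hm)
      have h4 := hN₃ m (le_trans (le_max_right _ _) hm)
      rw [LwJ_phiI ψ I hi] at h4
      have h5 : ∑ D ∈ sqF (dB g f) m, (avJ O K f θ nrs (phiI ψ ∅) (prD D) -
          avJ O K f θ nrs (phiI ψ (insert i I)) (prD D)) =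
          ∑ D ∈ sqF (dB g f) m, (avJ O K f θ nrs (phiI ψ ∅) (prD D) -
            avJ O K f θ nrs (phiI ψ I) (prD D)) +
          ∑ D ∈ sqF (dB g f) m, (avJ O K f θ nrs (phiI ψ I) (prD D) -
            avJ O K f θ nrs (phiI ψ (insert i I)) (prD D)) := by
        rw [← Finset.sum_add_distrib]
        exact Finset.sum_congr rfl fun D _ => by ring
      rw [h5]
      refine (abs_add_le _ _).trans ((add_le_add h3 h4).trans (le_of_eq ?_))
      ring
  have h0 : phiI ψ ∅ = fun d => ∏ i, ψ i (d i) := by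
    funext d
    unfold phiI
    exact Finset.prod_congr rfl fun i _ => by rw [if_neg (Finset.notMem_empty i)]
  have h1 : phiI ψ Finset.univ = fun _ => ∏ i, Lw (ψ i) := by
    funext d
    unfold phiI
    exact Finset.prod_congr rfl fun i _ => by rw [if_pos (Finset.mem_univ i)]
  rw [Metric.tendsto_atTop]
  intro ε hε
  obtain ⟨N₂, hN₂⟩ := hJNAT k ι g N r f hF hFull K L O θ hθ nrs hnrs (phiI ψ ∅)
    (phiI_le hMC hψ ∅) (c * ε / 3) (by positivity)
  obtain ⟨N₃, hN₃⟩ := hI Finset.univ (c * ε / 3) (by positivity)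
  refine ⟨max N₁ (max N₂ N₃), fun m hm => ?_⟩
  have e1 := hN₁ m (le_trans (le_max_left _ _) hm)
  have e2 := hN₂ m (le_trans (le_trans (le_max_left _ _) (le_max_right _ _)) hm)
  have e3 := hN₃ m (le_trans (le_trans (le_max_right _ _) (le_max_right _ _)) hm)
  rw [← hcard] at e1
  simp only [h1, avJ_const] at e3
  rw [h0] at e2 e3
  set q : ℝ := (Nat.card k : ℝ) with hqdef
  have hq0 : (0 : ℝ) < q ^ m := by
    have : (0 : ℝ) < q := by linarith
    positivity
  have hpos : (0 : ℝ) < ((sqF (dB g f) m).card : ℝ) := lt_of_lt_of_le (by positivity) e1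
  rw [Real.dist_eq]
  have h4 : (∑ D ∈ sqF (dB g f) m, ∏ i, ψ i (dimS (O i) K (f i) (θ i) D)) /
      ((sqF (dB g f) m).card : ℝ) - ∏ i, Lw (ψ i) =
      ((∑ D ∈ sqF (dB g f) m, ∏ i, ψ i (dimS (O i) K (f i) (θ i) D) -
        ∑ D ∈ sqF (dB g f) m, avJ O K f θ nrs (fun d => ∏ i, ψ i (d i)) (prD D)) +
        ∑ D ∈ sqF (dB g f) m, (avJ O K f θ nrs (fun d => ∏ i, ψ i (d i)) (prD D) -
          ∏ i, Lw (ψ i))) / ((sqF (dB g f) m).card : ℝ) := by
    rw [Finset.sum_sub_distrib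
      (f := fun D => avJ O K f θ nrs (fun d => ∏ i, ψ i (d i)) (prD D)), Finset.sum_const,
      nsmul_eq_mul]
    field_simp
    ring
  rw [h4, abs_div, abs_of_pos hpos, div_lt_iff₀ hpos]
  calc _ ≤ c * ε / 3 * q ^ m + c * ε / 3 * q ^ m := (abs_add_le _ _).trans (add_le_add e2 e3)
    _ = (2 / 3 * ε) * (c * q ^ m) := by ring
    _ < ε * (c * q ^ m) := mul_lt_mul_of_pos_right (by linarith) (by positivity)
    _ ≤ ε * ((sqF (dB g f) m).card : ℝ) := mul_le_mul_of_nonneg_left e1 hε.le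

end Run7.h784.JP
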