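import Pool.Agent.Run7.h784.JP.Mean
import Pool.Agent.Run7.h784.JP.LAW
import Pool.Agent.Run7.h784.JP.FIN
import Pool.Agent.Run7.h303.JP.Base
import Pool.Agent.Run7.h286.PL.StmM

/-!
# Project JPL: the means of all functions of at most exponential growth (helper784)
-/

set_option autoImplicit false
set_option linter.all false

open Polynomial IsDedekindDomain Filter
open scoped Classical Topology

namespace Run7.h784.JP

open Pool.Agent.N874.PP (Ov Ev Sq1)
open Pool.Agent.N352.PJ (IsGen Crd LocIm SelZero Fam GoodR Ht dsc)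
open Run7.h875.TS (chi cd IsPC GSq irrD dg NRs uT sqf prD sqL sz Tr)
open Run7.h784.TG
open Run7.h286.PL
open Run7.h68.TG (exists_pack psi_zero Pack)

/-- **JMEA** (helper784, from JLAW, NTM, QID (summability)). The means of all functions of at most
exponential growth. -/
def P_JMEA : Prop := ∀ (k : Type) [Field k] [Finite k] (ι : Type) [Fintype ι] [Nonempty ι] (g N : ι → ℕ)
  (r : ι → k[X]) (f : ι → k[X][X]), JF g N r f → JFull f →
    ∀ (K : Type) [Field K] [Algebra k[X] K] [IsFractionRing k[X] K] (L O : ι → Type)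
    [∀ i, Field (L i)] [∀ i, Algebra K (L i)] [∀ i, Algebra k[X] (L i)]
    [∀ i, IsScalarTower k[X] K (L i)] [∀ i, CommRing (O i)] [∀ i, IsDedekindDomain (O i)]
    [∀ i, Algebra (O i) (L i)] [∀ i, IsFractionRing (O i) (L i)] [∀ i, Algebra k[X] (O i)]
    [∀ i, IsScalarTower k[X] (O i) (L i)] [∀ i, IsIntegralClosure (O i) k[X] (L i)]
    (θ : ∀ i, L i), (∀ i, IsGen (g i) K (f i) (θ i)) →
  ∀ φ : (ι → ℕ) → ℝ, (∃ C y : ℝ, ∀ d, |φ d| ≤ C * y ^ (∑ i, d i)) →
    Tendsto (fun m => (∑ D ∈ sqF (dB g f) m, φ (fun i => dimS (O i) K (f i) (θ i) D)) /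
      ((sqF (dB g f) m).card : ℝ)) atTop
      (𝓝 (∑' d : ι → ℕ, φ d * ∏ i, (wt (d i) / ∑' j, wt j)))

/-- **JFINM** (helper784, from JMEA, BRG, EQ1, EQ2, JFULL). The means for the true 2-Selmer groups. -/
def P_JFINM : Prop := ∀ (k : Type) [Field k] [Finite k] (ι : Type) [Fintype ι] [Nonempty ι]
  (g N : ι → ℕ) (r : ι → k[X]) (f : ι → k[X][X]), JF g N r f →
    ∀ (K : Type) [Field K] [Algebra k[X] K] [IsFractionRing k[X] K],
  ∀ φ : (ι → ℕ) → ℝ, (∃ C y : ℝ, ∀ d, |φ d| ≤ C * y ^ (∑ i, d i)) →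
    Tendsto (fun m => (∑ D ∈ sqF (dB g f) m, φ (fun i => rkJ K ((f i).scaleRoots D))) /
      ((sqF (dB g f) m).card : ℝ)) atTop
      (𝓝 (∑' d : ι → ℕ, φ d * ∏ i, (wt (d i) / ∑' j, wt j)))

theorem wt_nonneg (d : ℕ) : 0 ≤ wt d := by
  unfold wt
  refine Finset.prod_nonneg fun i _ => div_nonneg (by norm_num) ?_
  have : (1 : ℝ) ≤ 2 ^ (i + 1) := one_le_pow₀ (by norm_num)
  linarith

theorem T_JMEA (hLAW : P_JLAW) (hNTM : P_NTM) (hQID : P_QID) : P_JMEA := by
  intro k _ _ ι _ hne g N r f hF hFull K _ _ _ L O _ _ _ _ _ _ _ _ _ _ _ θ hθ φ hφ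
  obtain ⟨C, y, hφ⟩ := hφ
  have h2 : (2 : k) ≠ 0 := hF.two
  have hB : dB g f ≠ 0 := dB_ne' hF
  obtain ⟨hfin, c, hc, N₁, hN₁⟩ := T_SQF3 k h2 (dB g f) hB
  have hcard : ∀ m, ((sqF (dB g f) m).card : ℝ) = ((sqf (dB g f) m).ncard : ℝ) := by
    intro m
    rw [Set.ncard_eq_toFinset_card _ (hfin m)]
    unfold sqF
    rw [dif_pos (hfin m)]
  have hsub : ∀ i m, sqF (dB g f) m ⊆ sqF (dsc (g i) (f i)) m := by
    intro i m D hD
    rw [Run7.h303.PL.mem_sqF] at hD ⊢
    exact ⟨hD.1, hD.2.1, hD.2.2.1, hD.2.2.2.of_isCoprime_of_dvd_right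
      (Run7.h303.JP.dsc_dvd g f i)⟩
  refine mean_of_law (fun d => wt d / ∑' j, wt j) (fun d => div_nonneg (wt_nonneg d)
    (tsum_nonneg wt_nonneg)) (fun y => ?_) (fun m => sqF (dB g f) m)
    (fun D i => dimS (O i) K (f i) (θ i) D) (fun d => ?_) (fun y hy => ?_) φ C y hφ
  · have h1 := (hQID.1 y).div_const (∑' j, wt j)
    refine h1.congr fun d => ?_
    ring
  · have h := hLAW k ι g N r f hF hFull K L O θ hθ
      (fun i x => if x ∈ ({d i} : Finset ℕ) then (1 : ℝ) else 0) (fun i x => ind_le _ _)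
    have h1 : ∀ i, Lw (fun x => if x ∈ ({d i} : Finset ℕ) then (1 : ℝ) else 0) =
        wt (d i) / ∑' j, wt j := by
      intro i
      rw [Lw_ind, Finset.sum_singleton]
    simp only [h1] at h
    refine h.congr fun m => ?_
    congr 1
    rw [Finset.card_filter]
    push_cast
    refine Finset.sum_congr rfl fun D _ => ?_
    simp only [Finset.mem_singleton]
    by_cases hall : (fun i => dimS (O i) K (f i) (θ i) D) = d
    · rw [if_pos hall]
      exact Finset.prod_eq_one fun i _ => by rw [if_pos (congrFun hall i)]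
    · rw [if_neg hall]
      have hex : ∃ i, dimS (O i) K (f i) (θ i) D ≠ d i := by
        by_contra h3
        push Not at h3
        exact hall (funext h3)
      obtain ⟨i, hi⟩ := hex
      exact Finset.prod_eq_zero (Finset.mem_univ i) (by rw [if_neg hi])
  · have hyp : (1 : ℝ) ≤ y ^ Fintype.card ι := one_le_pow₀ hy
    have h3 : ∀ i, ∃ B : ℝ, ∀ m : ℕ, ∑ D ∈ sqF (dsc (g i) (f i)) m,
        (y ^ Fintype.card ι) ^ dimS (O i) K (f i) (θ i) D ≤ B * (Nat.card k : ℝ) ^ m := fun i =>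
      hNTM k K (L i) (O i) (g i) (N i) (r i) (f i) (θ i) (hF.fm i)
        (Run7.h303.JP.full_of_jfull hFull i) (hθ i) _ hyp
    choose B hB' using h3
    refine ⟨(∑ i, |B i|) / c, ?_⟩
    filter_upwards [eventually_ge_atTop N₁] with m hm
    have h4 := hN₁ m hm
    rw [← hcard] at h4
    calc ∑ D ∈ sqF (dB g f) m, y ^ (∑ i, dimS (O i) K (f i) (θ i) D) ≤
          ∑ D ∈ sqF (dB g f) m, ∑ i, (y ^ Fintype.card ι) ^ dimS (O i) K (f i) (θ i) D :=
          Finset.sum_le_sum fun D _ => pow_sum_le y hy _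
      _ = ∑ i, ∑ D ∈ sqF (dB g f) m, (y ^ Fintype.card ι) ^ dimS (O i) K (f i) (θ i) D :=
          Finset.sum_comm
      _ ≤ ∑ i, |B i| * (Nat.card k : ℝ) ^ m := by
          refine Finset.sum_le_sum fun i _ => ?_
          refine (Finset.sum_le_sum_of_subset_of_nonneg (hsub i m) fun D _ _ => by positivity).trans
            ((hB' i m).trans (mul_le_mul_of_nonneg_right (le_abs_self _) (by positivity)))
      _ = (∑ i, |B i|) / c * (c * (Nat.card k : ℝ) ^ m) := by
          rw [← Finset.sum_mul]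
          field_simp
      _ ≤ (∑ i, |B i|) / c * ((sqF (dB g f) m).card : ℝ) :=
          mul_le_mul_of_nonneg_left h4 (div_nonneg (Finset.sum_nonneg fun i _ => abs_nonneg _) hc.le)

theorem T_JFINM (hMEA : P_JMEA) (hJFULL : P_JFULL) (hBRG : P_BRG) (hEQ1 : P_EQ1)
    (hEQ2 : P_EQ2) : P_JFINM := by
  intro k _ _ ι _ _ g N r f hF K _ _ _ φ hφ
  have h2 : (2 : k) ≠ 0 := hF.two
  have hB : dB g f ≠ 0 := dB_ne' hF
  have pk : ∀ i, Nonempty (Pack k K (g i) (f i)) := fun i => exists_pack k K (hF.fm i)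
  replace pk := fun i => (pk i).some
  have h := hMEA k ι g N r f hF (hJFULL k ι g N r f hF) K (fun i => (pk i).L)
      (fun i => (pk i).O) (fun i => (pk i).θ) (fun i => (pk i).gen) φ hφ
  refine h.congr fun m => ?_
  congr 1
  refine Finset.sum_congr rfl fun D hD => ?_
  have h6 := (mem_sqF h2 hB m D).1 hD
  congr 1
  funext i
  rw [(hBRG k K (pk i).L (pk i).O (g i) (N i) (r i) (f i) (pk i).θ (hF.fm i) (pk i).gen D h6.1
    h6.2.2.1 (ndvd_dB h6.2.2.2 i)).2 hEQ1 hEQ2]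

end Run7.h784.JP
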