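import Pool.Agent.Run7.h784.JP.JAbs

/-!
# Project JPL, piece JFULL: the abstract theorem for Galois extensions of `κ(X)`

Adapted from `Run7/h781/TG/Mid.lean` (helper781).
-/

set_option autoImplicit false
set_option linter.all false

open Polynomial
open scoped Classical

namespace Run7.h784.JP

open Run7.h781.TG

theorem mid_full' {κ : Type} [Field κ] [IsAlgClosed κ] (K' M : Type) [Field K'] [Algebra κ[X] K']
    [IsFractionRing κ[X] K'] [Field M] [Algebra K' M] [Algebra κ[X] M] [IsScalarTower κ[X] K' M]
    [FiniteDimensional K' M] [IsGalois K' M] {n : ℕ} (a : Fin n → M)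
    (aint : ∀ i, IsIntegral κ[X] (a i)) (ainj : Function.Injective a)
    (hperm : ∀ (s : M ≃ₐ[K'] M) (i : Fin n), ∃ j, s (a i) = a j)
    {β : Type} (b : β → M) (bint : ∀ x, IsIntegral κ[X] (b x))
    (hfaith : ∀ s : M ≃ₐ[K'] M, (∀ i, s (a i) = a i) → (∀ x, s (b x) = b x) → s = 1)
    (d : κ[X])
    (hbd : ∀ (s : M ≃ₐ[K'] M) (x : β), s (b x) ≠ b x → ∃ (e : κ[X]) (y : M), IsCoprime d e ∧
      IsIntegral κ[X] y ∧ algebraMap κ[X] M e = (s (b x) - b x) * y) (hsq : Squarefree d)
    (hd : algebraMap κ[X] M d = (Matrix.vandermonde a).det ^ 2)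
    {Γ : Type} [LinearOrderedCommGroupWithZero Γ] (v : Valuation M Γ)
    (hv1 : ∀ c : κ, c ≠ 0 → v (algebraMap κ[X] M (C c)) = 1)
    (hv2 : ∀ i j : Fin n, i ≠ j → 1 < v (a i - a j)) (i j : Fin n) (hij : i ≠ j) :
    ∃ s : M ≃ₐ[K'] M, s (a i) = a j ∧ s (a j) = a i ∧ (∀ l, l ≠ i → l ≠ j → s (a l) = a l) ∧
      ∀ x, s (b x) = b x := by
  let B := integralClosure κ[X] M
  haveI : IsDedekindDomain B := integralClosure.isDedekindDomain κ[X] K' M
  have hinjM : Function.Injective (algebraMap κ[X] M) := by
    rw [IsScalarTower.algebraMap_eq κ[X] K' M]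
    exact (algebraMap K' M).injective.comp (IsFractionRing.injective κ[X] K')
  let R := galRestrict κ[X] K' M B
  haveI : Finite (B ≃ₐ[κ[X]] B) := Finite.of_equiv _ R.toEquiv
  have hR : ∀ (s : M ≃ₐ[K'] M) (x : B), ((R s x : B) : M) = s (x : M) := fun s x =>
    algebraMap_galRestrict_apply κ[X] s x
  have hinj : Function.Injective (algebraMap κ[X] B) := by
    intro x y h
    apply hinjM
    rw [IsScalarTower.algebraMap_apply κ[X] B M, h, ← IsScalarTower.algebraMap_apply κ[X] B M]
  have hcoe : ∀ q : κ[X], ((algebraMap κ[X] B q : B) : M) = algebraMap κ[X] M q := fun q => rfl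
  let a' : Fin n → B := fun i => ⟨a i, aint i⟩
  let b' : β → B := fun x => ⟨b x, bint x⟩
  have key := abs_full' (G := B ≃ₐ[κ[X]] B) (κ := κ) (B := B) hinj
    (fun s q => s.commutes q)
    (by
      intro x hx
      have h1 : ∀ s : M ≃ₐ[K'] M, s (x : M) = x := by
        intro s
        rw [← hR, show R s x = x from hx (R s)]
      have h2 : (x : M) ∈ Set.range (algebraMap K' M) := by
        rw [← IsGalois.mem_range_algebraMap_iff_fixed]  at *
        exact h1
      obtain ⟨y, hy⟩ := h2
      have h3 : IsIntegral κ[X] (x : M) := x.2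
      rw [← hy] at h3
      have h4 : IsIntegral κ[X] y :=
        (isIntegral_algebraMap_iff (algebraMap K' M).injective).1 h3
      obtain ⟨q, hq⟩ := IsIntegrallyClosed.isIntegral_iff.1 h4
      refine ⟨q, Subtype.ext ?_⟩
      rw [hcoe, ← hy, ← hq, ← IsScalarTower.algebraMap_apply κ[X] K' M])
    a' (fun i j h => ainj (congrArg Subtype.val h))
    (by
      intro s i
      obtain ⟨s, rfl⟩ := R.surjective s
      obtain ⟨j, hj⟩ := hperm s i
      exact ⟨j, Subtype.ext (by rw [AlgEquiv.smul_def, hR]; exact hj)⟩)
    b'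
    (by
      intro s hs hs2
      obtain ⟨s, rfl⟩ := R.surjective s
      have : s = 1 := by
        apply hfaith
        · intro i
          have := congrArg Subtype.val (hs i)
          rw [AlgEquiv.smul_def, hR] at this
          exact this
        · intro x
          have := congrArg Subtype.val (hs2 x)
          rw [AlgEquiv.smul_def, hR] at this
          exact this
      rw [this, map_one])
    d
    (by
      intro P hP hdP s x hsx
      obtain ⟨s, rfl⟩ := R.surjective s
      by_contra hne
      have hne' : s (b x) ≠ b x := by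
        intro h
        apply hne
        apply Subtype.ext
        rw [AlgEquiv.smul_def, hR]
        exact h
      obtain ⟨e, y, hde, hy, he⟩ := hbd s x hne'
      have h1 : algebraMap κ[X] B e = (R s • b' x - b' x) * (⟨y, hy⟩ : B) := by
        apply Subtype.ext
        rw [hcoe, he]
        change _ = (((R s (b' x) : B) : M) - b x) * y
        rw [hR]
      have h2 : algebraMap κ[X] B e ∈ P := by
        rw [h1]
        exact P.mul_mem_right _ hsx
      obtain ⟨u, w, huw⟩ := hde
      apply hP.ne_top
      rw [Ideal.eq_top_iff_one, ← map_one (algebraMap κ[X] B), ← huw, map_add, map_mul, map_mul]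
      exact P.add_mem (P.mul_mem_left _ hdP) (P.mul_mem_left _ h2))
    hsq
    (by
      apply Subtype.val_injective
      rw [hcoe, hd]
      have : (Matrix.vandermonde a).det = ((Matrix.vandermonde a').det : B) := by
        have h := RingHom.map_det (algebraMap B M) (Matrix.vandermonde a')
        change _ = algebraMap B M _
        rw [h]
        congr 1
      rw [this]
      rfl)
    (v.comap (algebraMap B M)) (fun c hc => hv1 c hc) (fun i j h => hv2 i j h) i j hij
  obtain ⟨s, h1, h2, h3, h4⟩ := key
  obtain ⟨s, rfl⟩ := R.surjective s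
  refine ⟨s, ?_, ?_, fun l h5 h6 => ?_, fun x => ?_⟩
  · have := congrArg Subtype.val h1
    rw [AlgEquiv.smul_def, hR] at this
    exact this
  · have := congrArg Subtype.val h2
    rw [AlgEquiv.smul_def, hR] at this
    exact this
  · have := congrArg Subtype.val (h3 l h5 h6)
    rw [AlgEquiv.smul_def, hR] at this
    exact this
  · have := congrArg Subtype.val (h4 x)
    rw [AlgEquiv.smul_def, hR] at this
    exact this

end Run7.h784.JP
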