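import Mathlib

/-!
# From the law and bounded exponential moments to all means (helper784)
-/

set_option autoImplicit false
set_option linter.all false

open Filter
open scoped Classical Topology

namespace Run7.h784.JP

/-- A nonnegative product function is summable. -/
theorem summable_pi {ι : Type} [Fintype ι] (a : ι → ℕ → ℝ) (h0 : ∀ i d, 0 ≤ a i d)
    (hs : ∀ i, Summable (a i)) : Summable fun d : ι → ℕ => ∏ i, a i (d i) := by
  have hnn : ∀ d : ι → ℕ, 0 ≤ ∏ i, a i (d i) := fun d => Finset.prod_nonneg fun i _ => h0 i _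
  refine summable_of_sum_le (c := ∏ i, ∑' d, a i d) hnn fun u => ?_
  -- a box containing `u`
  let R : ℕ := u.sup fun d => ∑ i, d i
  have hsub : u ⊆ Fintype.piFinset fun _ : ι => Finset.range (R + 1) := by
    intro d hd
    rw [Fintype.mem_piFinset]
    intro i
    rw [Finset.mem_range]
    have h1 : ∑ i, d i ≤ R := Finset.le_sup (f := fun d : ι → ℕ => ∑ i, d i) hd
    have h2 : d i ≤ ∑ i, d i := Finset.single_le_sum (fun _ _ => Nat.zero_le _) (Finset.mem_univ i)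
    omega
  refine (Finset.sum_le_sum_of_subset_of_nonneg hsub fun d _ _ => hnn d).trans ?_
  rw [← Finset.prod_univ_sum (fun _ : ι => Finset.range (R + 1)) a]
  exact Finset.prod_le_prod (fun i _ => Finset.sum_nonneg fun d _ => h0 i d)
    fun i _ => (hs i).sum_le_tsum _ fun d _ => h0 i d

theorem mean_of_law {α : Type} {ι : Type} [Fintype ι] (p : ℕ → ℝ) (hp : ∀ d, 0 ≤ p d)
    (hs : ∀ y : ℝ, Summable fun d => p d * y ^ d) (S : ℕ → Finset α) (X : α → ι → ℕ)
    (hlaw : ∀ d : ι → ℕ, Tendsto (fun m => (((S m).filter fun D => X D = d).card : ℝ) /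
      ((S m).card : ℝ)) atTop (𝓝 (∏ i, p (d i))))
    (hb : ∀ y : ℝ, 1 ≤ y → ∃ B : ℝ, ∀ᶠ m in atTop,
      ∑ D ∈ S m, y ^ (∑ i, X D i) ≤ B * ((S m).card : ℝ))
    (φ : (ι → ℕ) → ℝ) (C y : ℝ) (hφ : ∀ d, |φ d| ≤ C * y ^ (∑ i, d i)) :
    Tendsto (fun m => (∑ D ∈ S m, φ (X D)) / ((S m).card : ℝ)) atTop
      (𝓝 (∑' d : ι → ℕ, φ d * ∏ i, p (d i))) := by
  -- better constants
  obtain ⟨C, y, hC, hy, hφ⟩ : ∃ C y : ℝ, 0 ≤ C ∧ 1 ≤ y ∧ ∀ d, |φ d| ≤ C * y ^ (∑ i, d i) := by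
    refine ⟨|C|, max 1 |y|, abs_nonneg _, le_max_left _ _, fun d => (hφ d).trans ?_⟩
    calc C * y ^ (∑ i, d i) ≤ |C * y ^ (∑ i, d i)| := le_abs_self _
      _ = |C| * |y| ^ (∑ i, d i) := by rw [abs_mul, abs_pow]
      _ ≤ |C| * (max 1 |y|) ^ (∑ i, d i) :=
        mul_le_mul_of_nonneg_left (pow_le_pow_left₀ (abs_nonneg _) (le_max_right _ _) _)
          (abs_nonneg _)
  have hy0 : 0 ≤ y := by linarith
  have hsum : Summable fun d : ι → ℕ => φ d * ∏ i, p (d i) := by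
    have h1 : Summable fun d : ι → ℕ => C * ∏ i, (p (d i) * y ^ d i) :=
      (summable_pi (fun _ d => p d * y ^ d) (fun _ d => mul_nonneg (hp d) (pow_nonneg hy0 d))
        fun _ => hs y).mul_left C
    refine Summable.of_norm_bounded h1 fun d => ?_
    rw [Real.norm_eq_abs, abs_mul, abs_of_nonneg (Finset.prod_nonneg fun i _ => hp _),
      Finset.prod_mul_distrib, Finset.prod_pow_eq_pow_sum]
    calc |φ d| * ∏ i, p (d i) ≤ (C * y ^ (∑ i, d i)) * ∏ i, p (d i) :=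
          mul_le_mul_of_nonneg_right (hφ d) (Finset.prod_nonneg fun i _ => hp _)
      _ = _ := by ring
  -- the boxes
  let Bx : ℕ → Finset (ι → ℕ) := fun R => Fintype.piFinset fun _ => Finset.range (R + 1)
  have hBx : ∀ R d, d ∈ Bx R ↔ ∀ i, d i ≤ R := by
    intro R d
    simp only [Bx, Fintype.mem_piFinset, Finset.mem_range, Nat.lt_succ_iff]
  have hBt : Tendsto Bx atTop atTop := by
    refine tendsto_atTop_finset_of_monotone (fun R R' h d hd => ?_) fun d => ⟨∑ i, d i, ?_⟩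
    · rw [hBx] at hd ⊢
      exact fun i => (hd i).trans h
    · rw [hBx]
      exact fun i => Finset.single_le_sum (fun _ _ => Nat.zero_le _) (Finset.mem_univ i)
  have hlim : Tendsto (fun R => ∑ d ∈ Bx R, φ d * ∏ i, p (d i)) atTop
      (𝓝 (∑' d : ι → ℕ, φ d * ∏ i, p (d i))) := hsum.hasSum.comp hBt
  obtain ⟨B, hB⟩ := hb (2 * y) (by linarith)
  rw [Metric.tendsto_atTop]
  intro ε hε
  obtain ⟨R₁, hR₁⟩ := Metric.tendsto_atTop.1 hlim (ε / 3) (by positivity)
  have hgeo : Tendsto (fun R : ℕ => C * |B| * (1 / 2 : ℝ) ^ R) atTop (𝓝 0) := by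
    have := (tendsto_pow_atTop_nhds_zero_of_lt_one (r := (1 / 2 : ℝ)) (by norm_num)
      (by norm_num)).const_mul (C * |B|)
    rwa [mul_zero] at this
  obtain ⟨R₂, hR₂⟩ := Metric.tendsto_atTop.1 hgeo (ε / 3) (by positivity)
  obtain ⟨R, hRa, hRb⟩ : ∃ R, R₁ ≤ R ∧ R₂ ≤ R := ⟨max R₁ R₂, le_max_left _ _, le_max_right _ _⟩
  have hR1 := hR₁ R hRa
  have hR2 := hR₂ R hRb
  rw [Real.dist_eq, sub_zero] at hR2
  have hmain : Tendsto (fun m => ∑ d ∈ Bx R, φ d * ((((S m).filter fun D => X D = d).card : ℝ) /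
      ((S m).card : ℝ))) atTop (𝓝 (∑ d ∈ Bx R, φ d * ∏ i, p (d i))) :=
    tendsto_finset_sum _ fun d _ => (hlaw d).const_mul (φ d)
  have hm1 := Metric.tendsto_atTop.1 hmain (ε / 3) (by positivity)
  obtain ⟨N₁, hN₁⟩ := hm1
  obtain ⟨N₂, hN₂⟩ := eventually_atTop.1 hB
  refine ⟨max N₁ N₂, fun m hm => ?_⟩
  have e1 := hN₁ m ((le_max_left _ _).trans hm)
  have e2 := hN₂ m ((le_max_right _ _).trans hm)
  -- the decomposition
  have h1 : ∑ D ∈ S m, φ (X D) = ∑ d ∈ Bx R, φ d * (((S m).filter fun D => X D = d).card : ℝ) +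
      ∑ D ∈ (S m).filter (fun D => ¬ X D ∈ Bx R), φ (X D) := by
    rw [← Finset.sum_filter_add_sum_filter_not (S m) (fun D => X D ∈ Bx R)]
    congr 1
    rw [← Finset.sum_fiberwise_of_maps_to (s := (S m).filter fun D => X D ∈ Bx R) (t := Bx R)
      (g := X) (fun D hD => (Finset.mem_filter.1 hD).2)]
    refine Finset.sum_congr rfl fun d hd => ?_
    rw [Finset.filter_filter]
    have h2 : (S m).filter (fun D => X D ∈ Bx R ∧ X D = d) = (S m).filter fun D => X D = d := by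
      refine Finset.filter_congr fun D _ => ⟨fun h => h.2, fun h => ⟨h ▸ hd, h⟩⟩
    rw [h2, Finset.sum_congr rfl fun D hD => by rw [(Finset.mem_filter.1 hD).2],
      Finset.sum_const, nsmul_eq_mul, mul_comm]
  have h3 : |∑ D ∈ (S m).filter (fun D => ¬ X D ∈ Bx R), φ (X D)| ≤
      C * (1 / 2 : ℝ) ^ R * (|B| * ((S m).card : ℝ)) := by
    calc _ ≤ ∑ D ∈ (S m).filter (fun D => ¬ X D ∈ Bx R), |φ (X D)| := Finset.abs_sum_le_sum_abs _ _
      _ ≤ ∑ D ∈ (S m).filter (fun D => ¬ X D ∈ Bx R),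
          C * (1 / 2 : ℝ) ^ R * (2 * y) ^ (∑ i, X D i) := by
        refine Finset.sum_le_sum fun D hD => ?_
        have h4 := (Finset.mem_filter.1 hD).2
        rw [hBx] at h4
        push Not at h4
        obtain ⟨i, hi⟩ := h4
        have h5 : R ≤ ∑ i, X D i :=
          hi.le.trans (Finset.single_le_sum (f := X D) (fun _ _ => Nat.zero_le _)
            (Finset.mem_univ i))
        refine (hφ _).trans ?_
        rw [mul_pow, mul_assoc]
        refine mul_le_mul_of_nonneg_left ?_ hC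
        rw [← mul_assoc]
        refine le_mul_of_one_le_left (pow_nonneg hy0 _) ?_
        calc (1 : ℝ) = (1 / 2 : ℝ) ^ R * 2 ^ R := by rw [← mul_pow]; norm_num
          _ ≤ (1 / 2 : ℝ) ^ R * 2 ^ (∑ i, X D i) :=
            mul_le_mul_of_nonneg_left (pow_le_pow_right₀ (by norm_num) h5) (by positivity)
      _ ≤ ∑ D ∈ S m, C * (1 / 2 : ℝ) ^ R * (2 * y) ^ (∑ i, X D i) :=
        Finset.sum_le_sum_of_subset_of_nonneg (Finset.filter_subset _ _) fun D _ _ => by positivity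
      _ = C * (1 / 2 : ℝ) ^ R * ∑ D ∈ S m, (2 * y) ^ (∑ i, X D i) := by rw [Finset.mul_sum]
      _ ≤ C * (1 / 2 : ℝ) ^ R * (|B| * ((S m).card : ℝ)) :=
        mul_le_mul_of_nonneg_left (e2.trans (mul_le_mul_of_nonneg_right (le_abs_self B)
          (Nat.cast_nonneg _))) (by positivity)
  have h4 : |(∑ D ∈ (S m).filter (fun D => ¬ X D ∈ Bx R), φ (X D)) / ((S m).card : ℝ)| < ε / 3 := by
    rw [abs_div, abs_of_nonneg (Nat.cast_nonneg (α := ℝ) (S m).card)]
    rcases Nat.eq_zero_or_pos (S m).card with h0 | h0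
    · rw [h0, Nat.cast_zero, div_zero]
      positivity
    · have h0' : (0 : ℝ) < ((S m).card : ℝ) := by exact_mod_cast h0
      rw [div_lt_iff₀ h0']
      refine h3.trans_lt ?_
      have h6 : C * |B| * (1 / 2 : ℝ) ^ R < ε / 3 := (le_abs_self _).trans_lt hR2
      calc C * (1 / 2 : ℝ) ^ R * (|B| * ((S m).card : ℝ)) =
          C * |B| * (1 / 2 : ℝ) ^ R * ((S m).card : ℝ) := by ring
        _ < _ := mul_lt_mul_of_pos_right h6 h0'
  rw [Real.dist_eq] at e1 hR1 ⊢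
  have h5 : (∑ D ∈ S m, φ (X D)) / ((S m).card : ℝ) - ∑' d : ι → ℕ, φ d * ∏ i, p (d i) =
      (∑ d ∈ Bx R, φ d * ((((S m).filter fun D => X D = d).card : ℝ) / ((S m).card : ℝ)) -
        ∑ d ∈ Bx R, φ d * ∏ i, p (d i)) +
      (∑ d ∈ Bx R, φ d * ∏ i, p (d i) - ∑' d : ι → ℕ, φ d * ∏ i, p (d i)) +
      (∑ D ∈ (S m).filter (fun D => ¬ X D ∈ Bx R), φ (X D)) / ((S m).card : ℝ) := by
    rw [h1, add_div, Finset.sum_div]
    simp only [mul_div_assoc]
    ring
  rw [h5]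
  refine (abs_add_le _ _).trans_lt ?_
  have h6 := abs_add_le (∑ d ∈ Bx R, φ d * ((((S m).filter fun D => X D = d).card : ℝ) /
      ((S m).card : ℝ)) - ∑ d ∈ Bx R, φ d * ∏ i, p (d i))
    (∑ d ∈ Bx R, φ d * ∏ i, p (d i) - ∑' d : ι → ℕ, φ d * ∏ i, p (d i))
  linarith

/-- The exponential of a sum of exponents is at most the sum of the exponentials. -/
theorem pow_sum_le {ι : Type} [Fintype ι] [Nonempty ι] (y : ℝ) (hy : 1 ≤ y) (d : ι → ℕ) :
    y ^ (∑ i, d i) ≤ ∑ i, (y ^ Fintype.card ι) ^ d i := by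
  obtain ⟨j, _, hj⟩ := Finset.exists_max_image Finset.univ d Finset.univ_nonempty
  have h1 : ∑ i, d i ≤ Fintype.card ι * d j := by
    calc ∑ i, d i ≤ ∑ _i : ι, d j := Finset.sum_le_sum fun i hi => hj i hi
      _ = _ := by rw [Finset.sum_const, Finset.card_univ, smul_eq_mul]
  calc y ^ (∑ i, d i) ≤ y ^ (Fintype.card ι * d j) := pow_le_pow_right₀ hy h1
    _ = (y ^ Fintype.card ι) ^ d j := pow_mul _ _ _
    _ ≤ _ := Finset.single_le_sum (f := fun i => (y ^ Fintype.card ι) ^ d i)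
      (fun i _ => by positivity) (Finset.mem_univ j)

end Run7.h784.JP
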